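import Pool.Agent.Y183.LS.M
set_option autoImplicit false

/-! Sets with a bounded number of representations. -/

namespace Pool.Agent.Y183.LS

open MeasureTheory Set Complex Filter Topology
open scoped ENNReal NNReal

attribute [local instance] instMeasureSpaceUnitAddCircle

variable {m : ℕ}

lemma parseval_unit (F : Finset (Fin m → ℤ)) (b : (Fin m → ℤ) → ℂ) :
    ∫⁻ x in HC m, ‖tri F iz b x‖ₑ ^ 2 = ∑ k ∈ F, ‖b k‖ₑ ^ 2 := by
  set g : Lp ℂ 2 (volume : Measure (UnitAddTorus (Fin m))) :=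
    ∑ k ∈ F, b k • UnitAddTorus.mFourierLp 2 k with hg
  have hgc : ⇑g =ᵐ[volume] fun x => ∑ k ∈ F, b k * UnitAddTorus.mFourier k x := by
    have h10 := Lp.coeFn_finsetSum F (fun k => b k • UnitAddTorus.mFourierLp (d := Fin m) 2 k)
    refine h10.trans ?_
    have h11 : ∀ᵐ x, ∀ k ∈ F, (b k • UnitAddTorus.mFourierLp (d := Fin m) 2 k : Lp ℂ 2 volume) x =
        b k * UnitAddTorus.mFourier k x := by
      rw [Finset.eventually_all F]
      intro k _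
      filter_upwards [Lp.coeFn_smul (b k) (UnitAddTorus.mFourierLp (d := Fin m) 2 k),
        UnitAddTorus.coeFn_mFourierLp (d := Fin m) 2 k] with x hx1 hx2
      rw [hx1, Pi.smul_apply, hx2, smul_eq_mul]
    filter_upwards [h11] with x hx
    rw [Finset.sum_apply]
    exact Finset.sum_congr rfl hx
  have h1 : ‖g‖ ^ 2 = ∑ k ∈ F, ‖b k‖ ^ 2 := by
    have h2 := (UnitAddTorus.orthonormal_mFourier (d := Fin m)).inner_sum b b F
    have h3 : inner ℂ g g = ((∑ k ∈ F, ‖b k‖ ^ 2 : ℝ) : ℂ) := by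
      rw [hg, h2]
      push_cast
      apply Finset.sum_congr rfl
      intro k _
      exact Complex.conj_mul' (b k)
    have h4 : ((‖g‖ ^ 2 : ℝ) : ℂ) = ((∑ k ∈ F, ‖b k‖ ^ 2 : ℝ) : ℂ) := by
      rw [← h3, inner_self_eq_norm_sq_to_K]
      push_cast
      rfl
    exact_mod_cast h4
  have h5 : ‖g‖ₑ ^ (2 : ℝ) = ∫⁻ x in HC m, ‖tri F iz b x‖ₑ ^ 2 := by
    rw [Lp.enorm_def, eLpNorm_congr_ae hgc, eLpNorm_eq_lintegral_rpow_enorm_toReal (by norm_num)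
      (by norm_num), ← ENNReal.rpow_mul]
    simp only [ENNReal.toReal_ofNat, ENNReal.rpow_ofNat]
    norm_num
    rw [lint_torus]
    simp only [mFourier_coe]
    rfl
  rw [← h5, ENNReal.rpow_ofNat, ← ofReal_norm, ← ENNReal.ofReal_pow (norm_nonneg _), h1,
    ENNReal.ofReal_sum_of_nonneg fun k _ => by positivity]
  apply Finset.sum_congr rfl
  intro k _
  rw [ENNReal.ofReal_pow (norm_nonneg _), ofReal_norm]

lemma parseval_cube (F : Finset (Fin m → ℤ)) (b : (Fin m → ℤ) → ℂ) :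
    ∫⁻ v in BA 1 m, ‖tri F (izA 1) b v‖ₑ ^ 2 = 2 ^ m * ∑ k ∈ F, ‖b k‖ₑ ^ 2 := by
  have h8 : Measurable (fun v : Fin m → ℝ => ‖tri F (izA 1) b v‖ₑ ^ 2) :=
    (tri_cont _ _ _).measurable.enorm.pow_const 2
  rw [lint_BA 1 one_pos _ h8, ← parseval_unit F b]
  have e1 : ENNReal.ofReal ((2 * 1) ^ m) = 2 ^ m := by
    rw [ENNReal.ofReal_pow (by norm_num)]
    norm_num
  rw [e1]
  congr 2
  ext x
  congr 2
  unfold tri
  simp only [dt_izA 1 one_pos]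

/-- the square of an exponential sum -/
lemma tri_sq (F : Finset (Fin m → ℤ)) (c : (Fin m → ℤ) → ℂ) (v : Fin m → ℝ) :
    tri F (izA 1) c v ^ 2 = tri ((F ×ˢ F).image fun w => w.1 + w.2) (izA 1)
      (fun n => ∑ w ∈ (F ×ˢ F).filter (fun w => w.1 + w.2 = n), c w.1 * c w.2) v := by
  have h1 : ∀ k l : Fin m → ℤ, dt (izA 1 (k + l)) v = dt (izA 1 k) v + dt (izA 1 l) v := by
    intro k l
    unfold dt izA
    rw [← Finset.sum_add_distrib]
    apply Finset.sum_congr rfl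
    intro i _
    rw [Pi.add_apply]
    push_cast
    ring
  have h2 : tri F (izA 1) c v ^ 2 = ∑ w ∈ F ×ˢ F, c w.1 * c w.2 * ec (dt (izA 1 (w.1 + w.2)) v) := by
    unfold tri
    rw [sq, Finset.sum_mul_sum, Finset.sum_product]
    apply Finset.sum_congr rfl
    intro k _
    apply Finset.sum_congr rfl
    intro l _
    rw [h1, ec_add]
    ring
  rw [h2]
  have h3 := Finset.sum_fiberwise_of_maps_to (s := F ×ˢ F)
    (t := (F ×ˢ F).image fun w => w.1 + w.2) (g := fun w => w.1 + w.2)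
    (fun w hw => Finset.mem_image_of_mem _ hw)
    (fun w => c w.1 * c w.2 * ec (dt (izA 1 (w.1 + w.2)) v))
  rw [← h3]
  unfold tri
  apply Finset.sum_congr rfl
  intro n _
  rw [Finset.sum_mul]
  apply Finset.sum_congr rfl
  intro w hw
  rw [(Finset.mem_filter.mp hw).2]

/-- **the fourth power** -/
lemma fourth (L : Set (Fin m → ℤ)) (r : ℕ)
    (hr : ∀ n : Fin m → ℤ, {w : (Fin m → ℤ) × (Fin m → ℤ) | w.1 ∈ L ∧ w.2 ∈ L ∧
      w.1 + w.2 = n}.encard ≤ r) (F : Finset (Fin m → ℤ)) (hF : ∀ k ∈ F, k ∈ L)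
    (c : (Fin m → ℤ) → ℂ) : ∫⁻ v in BA 1 m, (‖tri F (izA 1) c v‖ₑ ^ 2) ^ 2 ≤
      2 ^ m * (r * (∑ k ∈ F, ‖c k‖ₑ ^ 2) ^ 2) := by
  have h1 : ∀ v : Fin m → ℝ, (‖tri F (izA 1) c v‖ₑ ^ 2) ^ 2 =
      ‖tri ((F ×ˢ F).image fun w => w.1 + w.2) (izA 1)
      (fun n => ∑ w ∈ (F ×ˢ F).filter (fun w => w.1 + w.2 = n), c w.1 * c w.2) v‖ₑ ^ 2 := by
    intro v
    rw [← tri_sq, enorm_pow]
  simp only [h1]
  rw [parseval_cube]
  gcongr 2 ^ m * ?_
  have h2 : ∀ n : Fin m → ℤ,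
      ‖∑ w ∈ (F ×ˢ F).filter (fun w => w.1 + w.2 = n), c w.1 * c w.2‖ₑ ^ 2 ≤
      r * ∑ w ∈ (F ×ˢ F).filter (fun w => w.1 + w.2 = n), ‖c w.1‖ₑ ^ 2 * ‖c w.2‖ₑ ^ 2 := by
    intro n
    set T := (F ×ˢ F).filter (fun w => w.1 + w.2 = n) with hT
    have h3 : T.card ≤ r := by
      have h4 : (T : Set ((Fin m → ℤ) × (Fin m → ℤ))).encard ≤ r := by
        refine (Set.encard_le_encard ?_).trans (hr n)
        intro w hw
        have h5 := Finset.mem_filter.mp (Finset.mem_coe.mp hw)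
        have h6 := Finset.mem_product.mp h5.1
        exact ⟨hF _ h6.1, hF _ h6.2, h5.2⟩
      rw [Set.encard_coe_eq_coe_finsetCard] at h4
      exact_mod_cast h4
    have h5 : ‖∑ w ∈ T, c w.1 * c w.2‖ ^ 2 ≤ r * ∑ w ∈ T, ‖c w.1‖ ^ 2 * ‖c w.2‖ ^ 2 := by
      calc ‖∑ w ∈ T, c w.1 * c w.2‖ ^ 2 ≤ (∑ w ∈ T, ‖c w.1 * c w.2‖) ^ 2 := by
            gcongr
            exact norm_sum_le _ _
        _ ≤ T.card * ∑ w ∈ T, ‖c w.1 * c w.2‖ ^ 2 := sq_sum_le_card_mul_sum_sq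
        _ ≤ r * ∑ w ∈ T, ‖c w.1 * c w.2‖ ^ 2 := by
            gcongr
        _ = _ := by
            simp only [norm_mul, mul_pow]
    have h6 := ENNReal.ofReal_le_ofReal h5
    rw [ENNReal.ofReal_pow (norm_nonneg _), ofReal_norm, ENNReal.ofReal_mul (Nat.cast_nonneg _),
      ENNReal.ofReal_natCast, ENNReal.ofReal_sum_of_nonneg fun w _ => by positivity] at h6
    refine h6.trans (le_of_eq ?_)
    congr 1
    apply Finset.sum_congr rfl
    intro w _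
    rw [ENNReal.ofReal_mul (by positivity), ENNReal.ofReal_pow (norm_nonneg _),
      ENNReal.ofReal_pow (norm_nonneg _), ofReal_norm, ofReal_norm]
  calc ∑ n ∈ (F ×ˢ F).image (fun w => w.1 + w.2),
        ‖∑ w ∈ (F ×ˢ F).filter (fun w => w.1 + w.2 = n), c w.1 * c w.2‖ₑ ^ 2 ≤
      ∑ n ∈ (F ×ˢ F).image (fun w => w.1 + w.2),
        r * ∑ w ∈ (F ×ˢ F).filter (fun w => w.1 + w.2 = n), ‖c w.1‖ₑ ^ 2 * ‖c w.2‖ₑ ^ 2 :=
        Finset.sum_le_sum fun n _ => h2 n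
    _ = r * ∑ w ∈ F ×ˢ F, ‖c w.1‖ₑ ^ 2 * ‖c w.2‖ₑ ^ 2 := by
        rw [← Finset.mul_sum]
        congr 1
        exact Finset.sum_fiberwise_of_maps_to (fun w hw => Finset.mem_image_of_mem _ hw) _
    _ = _ := by
        rw [sq, Finset.sum_mul_sum, Finset.sum_product]

/-- sets with a bounded number of representations -/
lemma LQ_rep (q : ℝ) (hq : 2 ≤ q) (hq4 : q ≤ 4) (L : Set (Fin m → ℤ)) (r : ℕ)
    (hr : ∀ n : Fin m → ℤ, {w : (Fin m → ℤ) × (Fin m → ℤ) | w.1 ∈ L ∧ w.2 ∈ L ∧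
      w.1 + w.2 = n}.encard ≤ r) : LQ q (2 ^ m * (r : ℝ≥0) ^ (1 / 4 : ℝ)) L := by
  intro F hF c
  have hq0 : 0 < q := by linarith
  set S := ∑ k ∈ F, ‖c k‖ₑ ^ 2 with hS
  have h4 := fourth L r hr F hF c
  set P : (Fin m → ℝ) → ℝ≥0∞ := fun v => ‖tri F (izA 1) c v‖ₑ ^ q with hP
  have hPm : Measurable P := (tri_cont _ _ _).measurable.enorm.pow_const q
  have h5 := Pool.Agent.W771.MD.jens (volume.restrict (BA 1 m)) P hPm (4 / q)
    (by rw [le_div_iff₀ hq0]; linarith)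
  rw [Measure.restrict_apply_univ, BA1_vol] at h5
  have h6 : ∀ v, P v ^ (4 / q) = (‖tri F (izA 1) c v‖ₑ ^ 2) ^ 2 := by
    intro v
    rw [hP]
    simp only
    rw [← ENNReal.rpow_mul, mul_div_cancel₀ _ hq0.ne', ← pow_mul]
    norm_cast
  simp only [h6] at h5
  have h7 := h5.trans (mul_le_mul' le_rfl h4)
  have h8 := ENNReal.rpow_le_rpow h7 (by positivity : 0 ≤ q / 4)
  rw [← ENNReal.rpow_mul] at h8
  have e1 : 4 / q * (q / 4) = 1 := by field_simp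
  rw [e1, ENNReal.rpow_one] at h8
  refine h8.trans ?_
  have h2m : ((2 : ℝ≥0∞) ^ m) ≠ ∞ := ENNReal.pow_ne_top (by norm_num)
  have h2m0 : ((2 : ℝ≥0∞) ^ m) ≠ 0 := pow_ne_zero _ two_ne_zero
  have h2m1 : 1 ≤ ((2 : ℝ≥0∞) ^ m) := one_le_pow₀ (by norm_num)
  have e2 : ((2 ^ m : ℝ≥0∞) ^ (4 / q - 1) * (2 ^ m * (r * S ^ 2))) ^ (q / 4) =
      2 ^ m * ((r : ℝ≥0∞) ^ (q / 4) * S ^ (q / 2)) := by
    have e3 : (2 ^ m : ℝ≥0∞) ^ (4 / q - 1) * (2 ^ m * (r * S ^ 2)) =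
        (2 ^ m : ℝ≥0∞) ^ (4 / q) * (r * S ^ 2) := by
      rw [← mul_assoc]
      congr 1
      nth_rewrite 2 [← ENNReal.rpow_one ((2 : ℝ≥0∞) ^ m)]
      rw [← ENNReal.rpow_add _ _ h2m0 h2m]
      congr 1
      ring
    rw [e3, ENNReal.mul_rpow_of_nonneg _ _ (by positivity), ← ENNReal.rpow_mul, e1,
      ENNReal.rpow_one, ENNReal.mul_rpow_of_nonneg _ _ (by positivity), ← ENNReal.rpow_natCast S 2,
      ← ENNReal.rpow_mul]
    congr 3
    push_cast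
    ring
  rw [e2]
  push_cast
  rw [ENNReal.coe_rpow_of_nonneg _ (by norm_num : (0 : ℝ) ≤ 1 / 4),
    ENNReal.mul_rpow_of_nonneg _ _ hq0.le, ← ENNReal.rpow_mul]
  have e4 : (1 / 4 : ℝ) * q = q / 4 := by ring
  rw [e4, ← mul_assoc]
  push_cast
  gcongr
  calc (2 : ℝ≥0∞) ^ m = ((2 : ℝ≥0∞) ^ m) ^ (1 : ℝ) := (ENNReal.rpow_one _).symm
    _ ≤ ((2 : ℝ≥0∞) ^ m) ^ q := ENNReal.rpow_le_rpow_of_exponent_le h2m1 (by linarith)

end Pool.Agent.Y183.LS
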