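import Mathlib
import Pool.Agent.W771.MK
set_option autoImplicit false

/-! Fresnel integrals over intervals. -/

namespace Pool.Agent.Y183.LS

open MeasureTheory Set Complex
open scoped ENNReal NNReal

/-- the exponential `exp(2 pi i x)` -/
noncomputable def ec (x : ℝ) : ℂ := cexp (2 * Real.pi * I * (x : ℂ))

lemma ec_norm (x : ℝ) : ‖ec x‖ = 1 := by
  unfold ec
  have : (2 * Real.pi * I * (x : ℂ)) = ((2 * Real.pi * x : ℝ) : ℂ) * I := by
    push_cast
    ring
  rw [this, Complex.norm_exp_ofReal_mul_I]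

lemma ec_enorm (x : ℝ) : ‖ec x‖ₑ = 1 := by
  rw [← ofReal_norm, ec_norm, ENNReal.ofReal_one]

lemma ec_add (x y : ℝ) : ec (x + y) = ec x * ec y := by
  unfold ec
  rw [← Complex.exp_add]
  congr 1
  push_cast
  ring

lemma ec_cont : Continuous ec := by
  unfold ec
  fun_prop

lemma ec_zero : ec 0 = 1 := by simp [ec]

lemma ec_sum {ι : Type*} (s : Finset ι) (f : ι → ℝ) : ec (∑ i ∈ s, f i) = ∏ i ∈ s, ec (f i) := by
  unfold ec
  rw [← Complex.exp_sum]
  congr 1
  push_cast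
  rw [Finset.mul_sum]

/-- the Fresnel integral over an interval -/
noncomputable def fr (t a b : ℝ) : ℂ := ∫ s in a..b, ec (t * s ^ 2)

lemma fr_cont (t : ℝ) : Continuous fun s : ℝ => ec (t * s ^ 2) :=
  ec_cont.comp (by fun_prop)

lemma fr_int (t a b : ℝ) : IntervalIntegrable (fun s : ℝ => ec (t * s ^ 2)) volume a b :=
  (fr_cont t).intervalIntegrable _ _

lemma fr_triv (t a b : ℝ) : ‖fr t a b‖ ≤ |b - a| := by
  unfold fr
  have := intervalIntegral.norm_integral_le_of_norm_le_const (a := a) (b := b)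
    (f := fun s : ℝ => ec (t * s ^ 2)) (C := 1) (fun s _ => (ec_norm _).le)
  simpa using this

lemma fr_neg (t a b : ℝ) : fr t (-b) (-a) = fr t a b := by
  unfold fr
  have := intervalIntegral.integral_comp_neg (a := a) (b := b) (fun s : ℝ => ec (t * s ^ 2))
  rw [← this]
  congr 1
  ext s
  congr 1
  ring

lemma fr_far (t a b : ℝ) (ht : t ≠ 0) (ha : 0 < a) (hab : a ≤ b) :
    ‖fr t a b‖ ≤ 1 / (2 * Real.pi * |t| * a) := by
  have hpi := Real.pi_pos
  have hb : 0 < b := by linarith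
  have htp : 0 < |t| := abs_pos.mpr ht
  obtain ⟨c, hc⟩ : ∃ c : ℂ, c = 4 * Real.pi * I * t := ⟨_, rfl⟩
  have hc0 : c ≠ 0 := by
    rw [hc]
    simp [Real.pi_ne_zero, ht]
  have hcn : ‖c‖ = 4 * Real.pi * |t| := by
    rw [hc]
    simp [abs_of_pos hpi]
  have hpos : ∀ s ∈ uIcc a b, 0 < s := by
    intro s hs
    rw [uIcc_of_le hab] at hs
    linarith [hs.1]
  -- the primitive
  have hd : ∀ s ∈ uIcc a b, HasDerivAt (fun s : ℝ => ec (t * s ^ 2) * (c * (s : ℂ))⁻¹)
      (ec (t * s ^ 2) - ec (t * s ^ 2) * (c * (s : ℂ) ^ 2)⁻¹) s := by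
    intro s hs
    have hs0 : (s : ℂ) ≠ 0 := by
      exact_mod_cast (hpos s hs).ne'
    have h1 : HasDerivAt (fun s : ℝ => ec (t * s ^ 2))
        (ec (t * s ^ 2) * (2 * Real.pi * I * (2 * t * s : ℝ))) s := by
      unfold ec
      have h2 : HasDerivAt (fun s : ℝ => 2 * Real.pi * I * ((t * s ^ 2 : ℝ) : ℂ))
          (2 * Real.pi * I * ((2 * t * s : ℝ) : ℂ)) s := by
        apply HasDerivAt.const_mul
        have h3 : HasDerivAt (fun s : ℝ => t * s ^ 2) (2 * t * s) s := by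
          refine ((hasDerivAt_pow 2 s).const_mul t).congr_deriv ?_
          simp only [Nat.add_one_sub_one, pow_one, Nat.cast_ofNat]
          ring
        exact h3.ofReal_comp
      exact h2.cexp
    have h4 : HasDerivAt (fun s : ℝ => (c * (s : ℂ))⁻¹) (-(c * 1) / (c * (s : ℂ)) ^ 2) s := by
      apply HasDerivAt.fun_inv
      · exact (hasDerivAt_id s).ofReal_comp.const_mul c
      · exact mul_ne_zero hc0 hs0
    refine (h1.mul h4).congr_deriv ?_
    have e1 : (2 * Real.pi * I * ((2 * t * s : ℝ) : ℂ)) = c * s := by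
      rw [hc]
      push_cast
      ring
    rw [e1]
    field_simp
    ring
  have hcontg : ContinuousOn (fun s : ℝ => ec (t * s ^ 2) * (c * (s : ℂ) ^ 2)⁻¹) (uIcc a b) := by
    apply ContinuousOn.mul (fr_cont t).continuousOn
    apply ContinuousOn.inv₀ (by fun_prop)
    intro s hs
    have hs0 : (s : ℂ) ≠ 0 := by
      exact_mod_cast (hpos s hs).ne'
    exact mul_ne_zero hc0 (pow_ne_zero _ hs0)
  have hi2 : IntervalIntegrable (fun s : ℝ => ec (t * s ^ 2) * (c * (s : ℂ) ^ 2)⁻¹) volume a b :=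
    hcontg.intervalIntegrable
  have h6 := intervalIntegral.integral_eq_sub_of_hasDerivAt hd ((fr_int t a b).sub hi2)
  rw [intervalIntegral.integral_sub (fr_int t a b) hi2] at h6
  have h7 : fr t a b = (ec (t * b ^ 2) * (c * (b : ℂ))⁻¹ - ec (t * a ^ 2) * (c * (a : ℂ))⁻¹) +
      ∫ s in a..b, ec (t * s ^ 2) * (c * (s : ℂ) ^ 2)⁻¹ := by
    rw [← h6]
    unfold fr
    ring
  have h8 : ‖∫ s in a..b, ec (t * s ^ 2) * (c * (s : ℂ) ^ 2)⁻¹‖ ≤
      (4 * Real.pi * |t|)⁻¹ * (a⁻¹ - b⁻¹) := by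
    have h9 : ‖∫ s in a..b, ec (t * s ^ 2) * (c * (s : ℂ) ^ 2)⁻¹‖ ≤
        ∫ s in a..b, (4 * Real.pi * |t|)⁻¹ * (s ^ 2)⁻¹ := by
      refine (intervalIntegral.norm_integral_le_integral_norm hab).trans (le_of_eq ?_)
      apply intervalIntegral.integral_congr
      intro s hs
      simp only
      rw [norm_mul, ec_norm, one_mul, norm_inv, norm_mul, hcn, norm_pow, Complex.norm_real,
        Real.norm_eq_abs, sq_abs, mul_inv]
    refine h9.trans (le_of_eq ?_)
    rw [intervalIntegral.integral_const_mul]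
    congr 1
    have h10 : ∀ s ∈ uIcc a b, HasDerivAt (fun s : ℝ => -s⁻¹) ((s ^ 2)⁻¹) s := by
      intro s hs
      have := (hasDerivAt_inv (hpos s hs).ne').neg
      rwa [neg_neg] at this
    rw [intervalIntegral.integral_eq_sub_of_hasDerivAt h10]
    · ring
    · apply ContinuousOn.intervalIntegrable
      apply ContinuousOn.inv₀ (by fun_prop)
      intro s hs
      exact pow_ne_zero _ (hpos s hs).ne'
  rw [h7]
  refine (norm_add_le _ _).trans ?_
  have h11 : ‖ec (t * b ^ 2) * (c * (b : ℂ))⁻¹ - ec (t * a ^ 2) * (c * (a : ℂ))⁻¹‖ ≤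
      (4 * Real.pi * |t|)⁻¹ * b⁻¹ + (4 * Real.pi * |t|)⁻¹ * a⁻¹ := by
    refine (norm_sub_le _ _).trans (le_of_eq ?_)
    rw [norm_mul, norm_mul, ec_norm, ec_norm, one_mul, one_mul, norm_inv, norm_inv, norm_mul,
      norm_mul, hcn, Complex.norm_real, Complex.norm_real, Real.norm_eq_abs, Real.norm_eq_abs,
      abs_of_pos ha, abs_of_pos hb]
    simp only [mul_inv]
  refine (add_le_add h11 h8).trans (le_of_eq ?_)
  field_simp
  ring

lemma fr_zero (t b : ℝ) (ht : t ≠ 0) : ‖fr t 0 b‖ ≤ 3 / 2 * |t| ^ (-(1 / 2) : ℝ) := by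
  have htp : 0 < |t| := abs_pos.mpr ht
  set r : ℝ := |t| ^ (-(1 / 2) : ℝ) with hr
  have hr0 : 0 < r := Real.rpow_pos_of_pos htp _
  have hrt : |t| * r = r⁻¹ := by
    rw [hr, ← Real.rpow_neg htp.le]
    nth_rewrite 1 [← Real.rpow_one |t|]
    rw [← Real.rpow_add htp]
    norm_num
  have hmain : ∀ b : ℝ, 0 ≤ b → ‖fr t 0 b‖ ≤ 3 / 2 * r := by
    intro b hb
    rcases le_or_gt b r with h | h
    · have := fr_triv t 0 b
      rw [sub_zero, abs_of_nonneg hb] at this
      linarith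
    · have h1 : fr t 0 b = fr t 0 r + fr t r b := by
        unfold fr
        rw [intervalIntegral.integral_add_adjacent_intervals (fr_int t _ _) (fr_int t _ _)]
      rw [h1]
      refine (norm_add_le _ _).trans ?_
      have h2 := fr_triv t 0 r
      rw [sub_zero, abs_of_nonneg hr0.le] at h2
      have h3 := fr_far t r b ht hr0 h.le
      have h4 : 1 / (2 * Real.pi * |t| * r) ≤ 1 / 2 * r := by
        rw [mul_assoc (2 * Real.pi) |t| r, hrt]
        have hpi : (1 : ℝ) < Real.pi := by linarith [Real.pi_gt_three]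
        rw [div_le_iff₀ (by positivity)]
        have : 1 / 2 * r * (2 * Real.pi * r⁻¹) = Real.pi := by
          field_simp
        rw [this]
        linarith
      linarith
  rcases le_or_gt 0 b with h | h
  · exact hmain b h
  · have h1 : fr t 0 b = - fr t 0 (-b) := by
      have h2 := fr_neg t b 0
      rw [neg_zero] at h2
      rw [h2]
      unfold fr
      rw [intervalIntegral.integral_symm]
    rw [h1, norm_neg]
    exact hmain _ (by linarith)

lemma fr_sqrt (t a b : ℝ) (ht : t ≠ 0) : ‖fr t a b‖ ≤ 3 * |t| ^ (-(1 / 2) : ℝ) := by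
  have h1 : fr t a b = fr t 0 b - fr t 0 a := by
    unfold fr
    rw [intervalIntegral.integral_interval_sub_left (fr_int t _ _) (fr_int t _ _)]
  rw [h1]
  refine (norm_sub_le _ _).trans ?_
  have h2 := fr_zero t a ht
  have h3 := fr_zero t b ht
  linarith

/-- the evolution of the indicator function of `[-3/2,3/2]` -/
noncomputable def eta (t z : ℝ) : ℂ := fr t (-(3 / 2) - z) (3 / 2 - z)

lemma eta_bound (t z : ℝ) (ht : 1 ≤ |t|) :
    ‖eta t z‖ ≤ 12 * |t| ^ (-(1 / 2) : ℝ) * (1 + ‖z‖) ^ (-(1 : ℝ)) := by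
  have htp : 0 < |t| := by linarith
  have ht0 : t ≠ 0 := abs_pos.mp htp
  have hr0 : 0 < |t| ^ (-(1 / 2) : ℝ) := Real.rpow_pos_of_pos htp _
  rw [Real.norm_eq_abs, Real.rpow_neg_one]
  have hz0 : 0 ≤ |z| := abs_nonneg z
  rcases le_or_gt |z| 3 with h | h
  · refine (fr_sqrt t _ _ ht0).trans ?_
    rw [← div_eq_mul_inv, le_div_iff₀ (by linarith)]
    nlinarith
  · have hmain : ∀ z : ℝ, 3 < z → ‖eta t (-z)‖ ≤ 12 * |t| ^ (-(1 / 2) : ℝ) * (1 + z)⁻¹ := by
      intro z hz
      unfold eta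
      refine (fr_far t _ _ ht0 (by linarith) (by linarith)).trans ?_
      have h1 : |t|⁻¹ ≤ |t| ^ (-(1 / 2) : ℝ) := by
        rw [← Real.rpow_neg_one]
        exact Real.rpow_le_rpow_of_exponent_le ht (by norm_num)
      have h2 : 1 / (2 * Real.pi * |t| * (-(3 / 2) - -z)) ≤ |t|⁻¹ * z⁻¹ := by
        rw [← mul_inv, ← one_div]
        apply one_div_le_one_div_of_le (by positivity)
        have hpi : (3 : ℝ) < Real.pi := Real.pi_gt_three
        have h3 : z ≤ 2 * Real.pi * (-(3 / 2) - -z) := by nlinarith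
        calc |t| * z ≤ |t| * (2 * Real.pi * (-(3 / 2) - -z)) := by gcongr
          _ = _ := by ring
      refine h2.trans ?_
      have h3 : z⁻¹ ≤ 12 * (1 + z)⁻¹ := by
        rw [← div_eq_mul_inv, le_div_iff₀ (by linarith), inv_mul_eq_div, div_le_iff₀ (by linarith)]
        linarith
      calc |t|⁻¹ * z⁻¹ ≤ |t| ^ (-(1 / 2) : ℝ) * (12 * (1 + z)⁻¹) := by gcongr
        _ = _ := by ring
    rcases le_or_gt 0 z with h0 | h0
    · rw [abs_of_nonneg h0] at h ⊢
      have h1 : eta t z = eta t (-z) := by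
        unfold eta
        rw [← fr_neg]
        congr 1 <;> ring
      rw [h1]
      exact hmain z h
    · rw [abs_of_neg h0] at h ⊢
      have := hmain (-z) h
      rwa [neg_neg] at this

lemma eta_cont (t : ℝ) : Continuous (eta t) := by
  unfold eta fr
  have h1 : ∀ z : ℝ, ∫ s in (-(3 / 2) - z)..(3 / 2 - z), ec (t * s ^ 2) =
      (∫ s in (0 : ℝ)..(3 / 2 - z), ec (t * s ^ 2)) - ∫ s in (0 : ℝ)..(-(3 / 2) - z), ec (t * s ^ 2) := by
    intro z
    rw [intervalIntegral.integral_interval_sub_left (fr_int t _ _) (fr_int t _ _)]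
  simp only [h1]
  have h2 : Continuous fun x : ℝ => ∫ s in (0 : ℝ)..x, ec (t * s ^ 2) :=
    intervalIntegral.continuous_primitive (fr_int t) 0
  exact (h2.comp (by fun_prop)).sub (h2.comp (by fun_prop))

/-- the constant of the next lemma -/
noncomputable def cE (q : ℝ) : ℝ≥0∞ := ∫⁻ z : ℝ, ENNReal.ofReal (12 ^ q * (1 + ‖z‖) ^ (-q))

lemma cE_ne_top (q : ℝ) (hq : 1 < q) : cE q ≠ ∞ := by
  unfold cE
  have h1 : Integrable (fun z : ℝ => (1 + ‖z‖) ^ (-q)) := by
    apply integrable_one_add_norm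
    simpa using hq
  exact (h1.const_mul _).lintegral_lt_top.ne

lemma eta_lint (q t : ℝ) (hq : 1 < q) (ht : 1 ≤ |t|) :
    ∫⁻ z, ‖eta t z‖ₑ ^ q ≤ ENNReal.ofReal (|t| ^ (-(q / 2))) * cE q := by
  have htp : 0 < |t| := by linarith
  unfold cE
  rw [← lintegral_const_mul' _ _ ENNReal.ofReal_ne_top]
  apply lintegral_mono
  intro z
  simp only
  rw [← ofReal_norm, ENNReal.ofReal_rpow_of_nonneg (norm_nonneg _) (by linarith),
    ← ENNReal.ofReal_mul (by positivity)]
  apply ENNReal.ofReal_le_ofReal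
  have h0 : 0 ≤ 1 + ‖z‖ := by positivity
  calc ‖eta t z‖ ^ q ≤ (12 * |t| ^ (-(1 / 2) : ℝ) * (1 + ‖z‖) ^ (-(1 : ℝ))) ^ q := by
        apply Real.rpow_le_rpow (norm_nonneg _) (eta_bound t z ht) (by linarith)
    _ = _ := by
        rw [Real.mul_rpow (by positivity) (by positivity), Real.mul_rpow (by positivity)
          (by positivity), ← Real.rpow_mul htp.le, ← Real.rpow_mul h0]
        have e1 : -(1 / 2) * q = -(q / 2) := by ring
        have e2 : -(1 : ℝ) * q = -q := by ring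
        rw [e1, e2]
        ring

end Pool.Agent.Y183.LS
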