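import Pool.Agent.Y183.LS.A
set_option autoImplicit false

/-! The trapezoidal window in one dimension. -/

namespace Pool.Agent.Y183.LS

open MeasureTheory Set Complex
open scoped ENNReal NNReal
open Pool.Agent.W771.MD (qe em)

lemma qe_ec (y t v : ℝ) : qe y t v = ec (v * y + v ^ 2 * t) := rfl

/-- indicator of the unit interval -/
noncomputable def i1 (x : ℝ) : ℂ := (Icc (-(1 / 2) : ℝ) (1 / 2)).indicator (fun _ => (1 : ℂ)) x

/-- indicator of the interval of length three -/
noncomputable def i3 (x : ℝ) : ℂ := (Icc (-(3 / 2) : ℝ) (3 / 2)).indicator (fun _ => (1 : ℂ)) x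

lemma i1_meas : Measurable i1 := measurable_const.indicator measurableSet_Icc
lemma i3_meas : Measurable i3 := measurable_const.indicator measurableSet_Icc

lemma i1_norm (x : ℝ) : ‖i1 x‖ ≤ 1 := by
  unfold i1
  refine (norm_indicator_le_norm_self _ _).trans ?_
  simp

lemma i3_norm (x : ℝ) : ‖i3 x‖ ≤ 1 := by
  unfold i3
  refine (norm_indicator_le_norm_self _ _).trans ?_
  simp

/-- the window -/
noncomputable def w1 (x : ℝ) : ℂ := ∫ s, i1 (x - s) * i3 s

lemma w1_meas : Measurable w1 := by
  unfold w1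
  apply StronglyMeasurable.measurable
  apply StronglyMeasurable.integral_prod_right' (f := fun w : ℝ × ℝ => i1 (w.1 - w.2) * i3 w.2)
  apply Measurable.stronglyMeasurable
  exact (i1_meas.comp (measurable_fst.sub measurable_snd)).mul (i3_meas.comp measurable_snd)

lemma w1_eq (x : ℝ) : w1 x = ∫ s in Icc (x - 1 / 2) (x + 1 / 2), i3 s := by
  unfold w1
  rw [← integral_indicator measurableSet_Icc]
  congr 1
  ext s
  unfold i1
  by_cases h : s ∈ Icc (x - 1 / 2) (x + 1 / 2)
  · rw [indicator_of_mem h, indicator_of_mem, one_mul]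
    constructor <;> linarith [h.1, h.2]
  · rw [indicator_of_notMem h, indicator_of_notMem, zero_mul]
    intro h2
    exact h ⟨by linarith [h2.2], by linarith [h2.1]⟩

lemma w1_one (x : ℝ) (hx : x ∈ Icc (-1 : ℝ) 1) : w1 x = 1 := by
  rw [w1_eq]
  have h1 : ∫ s in Icc (x - 1 / 2) (x + 1 / 2), i3 s =
      ∫ s in Icc (x - 1 / 2) (x + 1 / 2), (1 : ℂ) := by
    apply setIntegral_congr_fun measurableSet_Icc
    intro s hs
    unfold i3
    simp only
    rw [indicator_of_mem]
    constructor <;> linarith [hs.1, hs.2, hx.1, hx.2]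
  rw [h1]
  simp
  norm_num

lemma w1_zero (x : ℝ) (hx : x ∉ Icc (-2 : ℝ) 2) : w1 x = 0 := by
  unfold w1
  have h1 : ∀ s, i1 (x - s) * i3 s = 0 := by
    intro s
    by_contra hc
    have h1 : i1 (x - s) ≠ 0 := left_ne_zero_of_mul hc
    have h3 : i3 s ≠ 0 := right_ne_zero_of_mul hc
    have h4 := mem_of_indicator_ne_zero h1
    have h5 := mem_of_indicator_ne_zero h3
    exact hx ⟨by linarith [h4.1, h5.1], by linarith [h4.2, h5.2]⟩
  simp [h1]

lemma w1_norm (x : ℝ) : ‖w1 x‖ ≤ 1 := by
  rw [w1_eq]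
  have h1 := norm_setIntegral_le_of_norm_le_const (μ := volume) (s := Icc (x - 1 / 2) (x + 1 / 2))
    (f := i3) (C := 1) (by simp) (fun s _ => i3_norm s)
  refine h1.trans (le_of_eq ?_)
  simp only [Real.volume_real_Icc, one_mul]
  rw [max_eq_left (by linarith)]
  ring

lemma eta_int (t z : ℝ) : ∫ s, i3 (z + s) * ec (t * s ^ 2) = eta t z := by
  unfold eta fr
  rw [intervalIntegral.integral_of_le (by linarith), ← integral_Icc_eq_integral_Ioc,
    ← integral_indicator measurableSet_Icc]
  congr 1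
  ext s
  unfold i3
  by_cases h : s ∈ Icc (-(3 / 2) - z) (3 / 2 - z)
  · rw [indicator_of_mem h, indicator_of_mem, one_mul]
    constructor <;> linarith [h.1, h.2]
  · rw [indicator_of_notMem h, indicator_of_notMem, zero_mul]
    intro h2
    exact h ⟨by linarith [h2.1], by linarith [h2.2]⟩

/-- **the main identity**, without phases -/
lemma w1_repr (t z a : ℝ) : ∫ v, w1 v * ec (t * (v - z + a) ^ 2) =
    ∫ x, i1 (z - x) * eta t (x - a) := by
  have h1 : ∫ v, w1 v * ec (t * (v - z + a) ^ 2) = ∫ s, w1 (s + (z - a)) * ec (t * s ^ 2) := by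
    rw [← integral_add_right_eq_self (fun v => w1 v * ec (t * (v - z + a) ^ 2)) (z - a)]
    congr 1
    ext s
    congr 3
    ring
  have h2 : ∀ s, w1 (s + (z - a)) * ec (t * s ^ 2) =
      ∫ x, i1 (z - x) * (i3 (x - a + s) * ec (t * s ^ 2)) := by
    intro s
    unfold w1
    rw [← integral_add_right_eq_self (fun x => i1 (s + (z - a) - x) * i3 x) (s - a),
      ← integral_mul_const]
    congr 1
    ext x
    rw [show s + (z - a) - (x + (s - a)) = z - x by ring, show x + (s - a) = x - a + s by ring]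
    ring
  rw [h1]
  simp only [h2]
  rw [integral_integral_swap]
  · congr 1
    ext x
    rw [integral_const_mul, eta_int]
  · -- integrability
    set S : Set (ℝ × ℝ) := Icc (-(3 / 2) - z - 1 / 2 + a) (3 / 2 - z + 1 / 2 + a) ×ˢ
      Icc (z - 1 / 2) (z + 1 / 2) with hS
    have hSm : MeasurableSet S := measurableSet_Icc.prod measurableSet_Icc
    have hm : Measurable (fun w : ℝ × ℝ => i1 (z - w.2) * (i3 (w.2 - a + w.1) * ec (t * w.1 ^ 2))) := by
      apply Measurable.mul
      · exact i1_meas.comp (measurable_const.sub measurable_snd)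
      · apply Measurable.mul
        · exact i3_meas.comp ((measurable_snd.sub_const a).add measurable_fst)
        · exact (fr_cont t).measurable.comp measurable_fst
    have hz : ∀ w : ℝ × ℝ, w ∉ S →
        i1 (z - w.2) * (i3 (w.2 - a + w.1) * ec (t * w.1 ^ 2)) = 0 := by
      intro w hw
      by_contra hc
      have h4 := mem_of_indicator_ne_zero (left_ne_zero_of_mul hc)
      have h5 := mem_of_indicator_ne_zero (left_ne_zero_of_mul (right_ne_zero_of_mul hc))
      apply hw
      rw [hS]
      refine ⟨⟨?_, ?_⟩, ⟨?_, ?_⟩⟩ <;> linarith [h4.1, h4.2, h5.1, h5.2]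
    have hSf : (volume : Measure ℝ).prod volume S < ∞ := by
      rw [hS, Measure.prod_prod, Real.volume_Icc, Real.volume_Icc]
      exact ENNReal.mul_lt_top ENNReal.ofReal_lt_top ENNReal.ofReal_lt_top
    have h6 : IntegrableOn (fun w : ℝ × ℝ => i1 (z - w.2) * (i3 (w.2 - a + w.1) * ec (t * w.1 ^ 2))) S
        ((volume : Measure ℝ).prod volume) := by
      refine Measure.integrableOn_of_bounded (M := 1) hSf.ne hm.aestronglyMeasurable ?_
      refine ae_of_all _ fun w => ?_
      rw [norm_mul, norm_mul, ec_norm, mul_one]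
      exact mul_le_one₀ (i1_norm _) (norm_nonneg _) (i3_norm _)
    have h7 := integrableOn_iff_integrable_of_support_subset (μ := (volume : Measure ℝ).prod volume)
      (s := S) (f := fun w : ℝ × ℝ => i1 (z - w.2) * (i3 (w.2 - a + w.1) * ec (t * w.1 ^ 2)))
      (by
        intro w hw
        by_contra hc
        exact hw (hz w hc))
    exact h7.mp h6

/-- **the main identity** in one dimension -/
lemma w1_main (t z κ : ℝ) (ht : t ≠ 0) :
    ∫ v, w1 v * (ec (κ * v) * qe (-(2 * t * z)) t v) =
      ec (-(t * z ^ 2)) * ec (κ * z) * ec (-(κ ^ 2 / (4 * t))) *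
        ∫ x, i1 (z - x) * eta t (x - κ / (2 * t)) := by
  rw [← w1_repr, ← integral_const_mul]
  congr 1
  ext v
  rw [qe_ec]
  have h1 : ec (κ * v) * ec (v * -(2 * t * z) + v ^ 2 * t) =
      ec (-(t * z ^ 2)) * ec (κ * z) * ec (-(κ ^ 2 / (4 * t))) *
        ec (t * (v - z + κ / (2 * t)) ^ 2) := by
    simp only [← ec_add]
    congr 1
    field_simp
    ring
  rw [h1]
  ring

end Pool.Agent.Y183.LS
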