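import Pool.Agent.Y183.LS.B
set_option autoImplicit false

/-! The window in several variables, finite sums. -/

namespace Pool.Agent.Y183.LS

open MeasureTheory Set Complex
open scoped ENNReal NNReal
open Pool.Agent.W771.MD (qe em)

variable {m : ℕ}

/-- product formula -/
theorem lint_prod (n : ℕ) (g : Fin n → ℝ → ℝ≥0∞) (hg : ∀ j, Measurable (g j)) :
    ∫⁻ y : Fin n → ℝ, ∏ j, g j (y j) = ∏ j, ∫⁻ x : ℝ, g j x := by
  induction n with
  | zero => simp [volume_pi]
  | succ n ih =>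
    have h1 := (volume_preserving_piFinSuccAbove (fun _ : Fin (n+1) => ℝ) 0).symm
    rw [← h1.lintegral_comp_emb (MeasurableEquiv.measurableEmbedding _)]
    have h2 : ∀ a : ℝ × (Fin n → ℝ), ∏ j, g j ((MeasurableEquiv.piFinSuccAbove
        (fun _ : Fin (n+1) => ℝ) 0).symm a j) = g 0 a.1 * ∏ j : Fin n, g j.succ (a.2 j) := by
      intro a
      rw [Fin.prod_univ_succ]
      simp [MeasurableEquiv.piFinSuccAbove]
    simp_rw [h2]
    have hG : Measurable (fun Y : Fin n → ℝ => ∏ j, g j.succ (Y j)) :=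
      Finset.measurable_prod _ fun j _ => (hg _).comp (measurable_pi_apply j)
    rw [Measure.volume_eq_prod]
    have h3 := lintegral_prod_mul (μ := (volume : Measure ℝ)) (ν := (volume : Measure (Fin n → ℝ)))
      (hg 0).aemeasurable hG.aemeasurable
    rw [Fin.prod_univ_succ, ← ih _ (fun j => hg j.succ)]
    exact h3

/-- the window -/
noncomputable def Wm (v : Fin m → ℝ) : ℂ := ∏ i, w1 (v i)

/-- the product of the `eta` -/
noncomputable def He (t : ℝ) (κ : Fin m → ℝ) (x : Fin m → ℝ) : ℂ :=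
  ∏ i, eta t (x i - κ i / (2 * t))

lemma He_meas (t : ℝ) (κ : Fin m → ℝ) : Measurable (He t κ) := by
  apply Continuous.measurable
  unfold He
  apply continuous_finsetProd
  intro i _
  exact (eta_cont t).comp (by fun_prop)

/-- scalar product -/
noncomputable def dt (κ v : Fin m → ℝ) : ℝ := ∑ i, κ i * v i

lemma dt_cont (κ : Fin m → ℝ) : Continuous (dt κ) := by
  unfold dt
  fun_prop

lemma dt_add (κ v w : Fin m → ℝ) : dt κ (v + w) = dt κ v + dt κ w := by
  unfold dt
  rw [← Finset.sum_add_distrib]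
  apply Finset.sum_congr rfl
  intro i _
  rw [Pi.add_apply]
  ring

/-- square of the length -/
noncomputable def sq2 (κ : Fin m → ℝ) : ℝ := ∑ i, κ i ^ 2

lemma Wm_main (t : ℝ) (ht : t ≠ 0) (z κ : Fin m → ℝ) :
    ∫ v, Wm v * (ec (dt κ v) * em (fun i => -(2 * t * z i)) t v) =
      ec (-(t * sq2 z)) * ec (dt κ z) * ec (-(sq2 κ / (4 * t))) *
        ∫ x : Fin m → ℝ, (∏ i, i1 (z i - x i)) * He t κ x := by
  have h1 : ∀ v : Fin m → ℝ, Wm v * (ec (dt κ v) * em (fun i => -(2 * t * z i)) t v) =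
      ∏ i, (w1 (v i) * (ec (κ i * v i) * qe (-(2 * t * z i)) t (v i))) := by
    intro v
    unfold Wm Pool.Agent.W771.MD.em dt
    rw [ec_sum, Finset.prod_mul_distrib, Finset.prod_mul_distrib]
  have h2 : ∀ x : Fin m → ℝ, (∏ i, i1 (z i - x i)) * He t κ x =
      ∏ i, (i1 (z i - x i) * eta t (x i - κ i / (2 * t))) := by
    intro x
    unfold He
    rw [Finset.prod_mul_distrib]
  simp only [h1, h2]
  rw [integral_fintype_prod_volume_eq_prod (fun i => fun x : ℝ => w1 x * (ec (κ i * x) *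
    qe (-(2 * t * z i)) t x)), integral_fintype_prod_volume_eq_prod
    (fun i => fun x : ℝ => i1 (z i - x) * eta t (x - κ i / (2 * t)))]
  simp only [w1_main _ _ _ ht]
  rw [Finset.prod_mul_distrib, Finset.prod_mul_distrib, Finset.prod_mul_distrib]
  congr 1
  unfold dt sq2
  rw [← ec_sum, ← ec_sum, ← ec_sum]
  congr 2
  · congr 1
    rw [Finset.mul_sum, Finset.sum_neg_distrib]
  · rw [Finset.sum_neg_distrib, Finset.sum_div]

/-- the cube of side one -/
abbrev QQ (m : ℕ) : Set (Fin m → ℝ) := Icc (fun _ => -(1 / 2)) (fun _ => 1 / 2)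

lemma i1_prod (z x : Fin m → ℝ) :
    ∏ i, i1 (z i - x i) = (QQ m).indicator (fun _ => (1 : ℂ)) (z - x) := by
  unfold i1
  by_cases h : z - x ∈ QQ m
  · rw [indicator_of_mem h]
    apply Finset.prod_eq_one
    intro i _
    rw [indicator_of_mem]
    exact ⟨h.1 i, h.2 i⟩
  · rw [indicator_of_notMem h]
    by_contra hc
    apply h
    rw [← Ne, Finset.prod_ne_zero_iff] at hc
    have h2 := fun i => mem_of_indicator_ne_zero (hc i (Finset.mem_univ i))
    exact ⟨fun i => (h2 i).1, fun i => (h2 i).2⟩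

lemma QQ_vol (m : ℕ) : volume (QQ m) = 1 := by
  rw [Real.volume_Icc_pi]
  simp
  norm_num

lemma Wm_int (h : (Fin m → ℝ) → ℂ) (hh : Measurable h) (hb : ∃ B, ∀ v, ‖h v‖ ≤ B) :
    Integrable (fun v : Fin m → ℝ => Wm v * h v) := by
  obtain ⟨B, hB⟩ := hb
  have hWm : Measurable (Wm (m := m)) :=
    Finset.measurable_fun_prod _ fun i _ => w1_meas.comp (measurable_pi_apply i)
  set S : Set (Fin m → ℝ) := Icc (fun _ => -2) (fun _ => 2) with hS
  have hz : ∀ v, v ∉ S → Wm v * h v = 0 := by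
    intro v hv
    have h1 : ∃ i, v i ∉ Icc (-2 : ℝ) 2 := by
      by_contra hc
      push Not at hc
      exact hv ⟨fun i => (hc i).1, fun i => (hc i).2⟩
    obtain ⟨i, hi⟩ := h1
    unfold Wm
    rw [Finset.prod_eq_zero (Finset.mem_univ i) (w1_zero _ hi), zero_mul]
  have hSf : volume S < ∞ := by
    rw [hS, Real.volume_Icc_pi]
    exact ENNReal.prod_lt_top fun _ _ => ENNReal.ofReal_lt_top
  have h6 : IntegrableOn (fun v : Fin m → ℝ => Wm v * h v) S := by
    refine Measure.integrableOn_of_bounded (M := 1 * B) hSf.ne (hWm.mul hh).aestronglyMeasurable ?_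
    refine ae_of_all _ fun w => ?_
    rw [norm_mul]
    apply mul_le_mul _ (hB w) (norm_nonneg _) zero_le_one
    unfold Wm
    rw [norm_prod]
    exact Finset.prod_le_one (fun i _ => norm_nonneg _) (fun i _ => w1_norm _)
  refine (integrableOn_iff_integrable_of_support_subset ?_).mp h6
  intro w hw
  by_contra hc
  exact hw (hz w hc)

/-- convexity -/
lemma convex_sum {ι : Type*} (F : Finset ι) (a X : ι → ℝ≥0∞) (r : ℝ) (hr : 1 ≤ r)
    (ha : ∀ i ∈ F, a i ≠ ∞) :
    (∑ i ∈ F, a i * X i) ^ r ≤ (∑ i ∈ F, a i) ^ (r - 1) * ∑ i ∈ F, a i * X i ^ r := by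
  set S := ∑ i ∈ F, a i with hS
  have hr0 : 0 < r := by linarith
  by_cases h0 : S = 0
  · have h1 : ∀ i ∈ F, a i = 0 := by
      rw [hS, Finset.sum_eq_zero_iff] at h0
      exact h0
    rw [Finset.sum_eq_zero (fun i hi => by rw [h1 i hi, zero_mul]), ENNReal.zero_rpow_of_pos hr0]
    exact zero_le
  · have hSt : S ≠ ∞ := (ENNReal.sum_lt_top.mpr fun i hi => (ha i hi).lt_top).ne
    have h2 := ENNReal.rpow_arith_mean_le_arith_mean_rpow F (fun i => a i / S) X (by
      simp only [div_eq_mul_inv]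
      rw [← Finset.sum_mul, ← hS, ENNReal.mul_inv_cancel h0 hSt]) hr
    have h3 : ∑ i ∈ F, a i * X i = S * ∑ i ∈ F, a i / S * X i := by
      rw [Finset.mul_sum]
      apply Finset.sum_congr rfl
      intro i _
      rw [← mul_assoc, ENNReal.mul_div_cancel h0 hSt]
    have h4 : ∑ i ∈ F, a i * X i ^ r = S * ∑ i ∈ F, a i / S * X i ^ r := by
      rw [Finset.mul_sum]
      apply Finset.sum_congr rfl
      intro i _
      rw [← mul_assoc, ENNReal.mul_div_cancel h0 hSt]
    rw [h3, h4, ENNReal.mul_rpow_of_nonneg _ _ hr0.le, ← mul_assoc]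
    have h5 : S ^ (r - 1) * S = S ^ r := by
      nth_rewrite 2 [← ENNReal.rpow_one S]
      rw [← ENNReal.rpow_add _ _ h0 hSt]
      congr 1
      ring
    rw [h5]
    gcongr

end Pool.Agent.Y183.LS
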