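import Pool.Agent.Y183.LS.C
set_option autoImplicit false

/-! The estimate of finite sums with the window. -/

namespace Pool.Agent.Y183.LS

open MeasureTheory Set Complex
open scoped ENNReal NNReal
open Pool.Agent.W771.MD (qe)

variable {m : ℕ}

/-- the quadratic exponential in several variables -/
noncomputable abbrev em (y : Fin m → ℝ) (t : ℝ) (v : Fin m → ℝ) : ℂ :=
  Pool.Agent.W771.MD.em y t v

/-- finite exponential sums -/
noncomputable def tri {ι : Type*} (F : Finset ι) (κ : ι → Fin m → ℝ) (c : ι → ℂ)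
    (v : Fin m → ℝ) : ℂ := ∑ k ∈ F, c k * ec (dt (κ k) v)

lemma tri_cont {ι : Type*} (F : Finset ι) (κ : ι → Fin m → ℝ) (c : ι → ℂ) :
    Continuous (tri F κ c) := by
  unfold tri
  apply continuous_finsetSum
  intro k _
  exact continuous_const.mul (ec_cont.comp (dt_cont _))

lemma ind_int (z : Fin m → ℝ) (h : (Fin m → ℝ) → ℂ) (hh : Continuous h) :
    Integrable (fun x => (∏ i, i1 (z i - x i)) * h x) := by
  have h1 : (fun x => (∏ i, i1 (z i - x i)) * h x) =
      (Icc (fun i => z i - 1 / 2) (fun i => z i + 1 / 2)).indicator h := by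
    ext x
    rw [i1_prod]
    by_cases hx : x ∈ Icc (fun i => z i - 1 / 2) (fun i => z i + 1 / 2)
    · rw [indicator_of_mem hx, indicator_of_mem, one_mul]
      refine ⟨fun i => ?_, fun i => ?_⟩
      · have := hx.2 i
        simp only [Pi.sub_apply]
        linarith
      · have := hx.1 i
        simp only [Pi.sub_apply]
        linarith
    · rw [indicator_of_notMem hx, indicator_of_notMem, zero_mul]
      intro h2
      apply hx
      refine ⟨fun i => ?_, fun i => ?_⟩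
      · have := h2.2 i
        simp only [Pi.sub_apply] at this
        linarith
      · have := h2.1 i
        simp only [Pi.sub_apply] at this
        linarith
  rw [h1, integrable_indicator_iff measurableSet_Icc]
  exact hh.continuousOn.integrableOn_compact isCompact_Icc

lemma He_cont (t : ℝ) (κ : Fin m → ℝ) : Continuous (He t κ) := by
  unfold He
  apply continuous_finsetProd
  intro i _
  exact (eta_cont t).comp (by fun_prop)

lemma win_rep {ι : Type*} (F : Finset ι) (κ : ι → Fin m → ℝ) (c : ι → ℂ) (t : ℝ) (ht : t ≠ 0)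
    (z : Fin m → ℝ) : ∫ v, Wm v * (tri F κ c v * em (fun i => -(2 * t * z i)) t v) =
      ec (-(t * sq2 z)) * ∫ x, (∏ i, i1 (z i - x i)) *
        ∑ k ∈ F, (c k * ec (-(sq2 (κ k) / (4 * t)))) * ec (dt (κ k) z) * He t (κ k) x := by
  have hem : Continuous (em (fun i => -(2 * t * z i)) t) := by
    unfold em Pool.Agent.W771.MD.em Pool.Agent.W771.MD.qe
    fun_prop
  have hemn : ∀ v, ‖em (fun i => -(2 * t * z i)) t v‖ = 1 := Pool.Agent.W771.MD.em_norm _ _
  have hI : ∀ k, Integrable (fun v => Wm v * (ec (dt (κ k) v) * em (fun i => -(2 * t * z i)) t v)) := by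
    intro k
    apply Wm_int
    · exact ((ec_cont.comp (dt_cont _)).mul hem).measurable
    · refine ⟨1, fun v => ?_⟩
      rw [norm_mul, ec_norm, hemn, one_mul]
  have h1 : ∀ v, Wm v * (tri F κ c v * em (fun i => -(2 * t * z i)) t v) =
      ∑ k ∈ F, c k * (Wm v * (ec (dt (κ k) v) * em (fun i => -(2 * t * z i)) t v)) := by
    intro v
    unfold tri
    rw [Finset.sum_mul, Finset.mul_sum]
    apply Finset.sum_congr rfl
    intro k _
    ring
  simp only [h1]
  rw [integral_finsetSum _ fun k _ => (hI k).const_mul _]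
  have h2 : ∀ x : Fin m → ℝ, (∏ i, i1 (z i - x i)) *
        ∑ k ∈ F, (c k * ec (-(sq2 (κ k) / (4 * t)))) * ec (dt (κ k) z) * He t (κ k) x =
      ∑ k ∈ F, ((c k * ec (-(sq2 (κ k) / (4 * t)))) * ec (dt (κ k) z)) *
        ((∏ i, i1 (z i - x i)) * He t (κ k) x) := by
    intro x
    rw [Finset.mul_sum]
    apply Finset.sum_congr rfl
    intro k _
    ring
  simp only [h2]
  rw [integral_finsetSum _ fun k _ => (ind_int z _ (He_cont t (κ k))).const_mul _, Finset.mul_sum]
  apply Finset.sum_congr rfl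
  intro k _
  rw [integral_const_mul, integral_const_mul]
  have h3 := Wm_main t ht z (κ k)
  rw [h3]
  ring

lemma enorm_ind (z x : Fin m → ℝ) : ‖∏ i, i1 (z i - x i)‖ₑ =
    (QQ m).indicator (fun _ => (1 : ℝ≥0∞)) (z - x) := by
  rw [i1_prod]
  by_cases h : z - x ∈ QQ m
  · rw [indicator_of_mem h, indicator_of_mem h, enorm_one]
  · rw [indicator_of_notMem h, indicator_of_notMem h, enorm_zero]

lemma QQ_meas_prod : MeasurableSet {w : (Fin m → ℝ) × (Fin m → ℝ) | w.1 - w.2 ∈ QQ m} :=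
  (measurable_fst.sub measurable_snd) measurableSet_Icc

lemma enorm_prd {ι : Type*} (s : Finset ι) (f : ι → ℂ) : ‖∏ i ∈ s, f i‖ₑ = ∏ i ∈ s, ‖f i‖ₑ := by
  simp only [← ofReal_norm, norm_prod]
  rw [ENNReal.ofReal_prod_of_nonneg fun i _ => norm_nonneg _]

lemma He_lint (q t : ℝ) (hq : 1 ≤ q) (κ : Fin m → ℝ) :
    ∫⁻ x, ‖He t κ x‖ₑ ^ q = (∫⁻ s, ‖eta t s‖ₑ ^ q) ^ m := by
  have hq0 : 0 ≤ q := by linarith
  have h1 : ∀ x, ‖He t κ x‖ₑ ^ q = ∏ i, ‖eta t (x i - κ i / (2 * t))‖ₑ ^ q := by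
    intro x
    unfold He
    rw [enorm_prd, ENNReal.prod_rpow_of_nonneg hq0]
  simp only [h1]
  rw [lint_prod m (fun i s => ‖eta t (s - κ i / (2 * t))‖ₑ ^ q)]
  · have h2 : ∀ i, ∫⁻ s, ‖eta t (s - κ i / (2 * t))‖ₑ ^ q = ∫⁻ s, ‖eta t s‖ₑ ^ q := by
      intro i
      exact lintegral_sub_right_eq_self (fun s => ‖eta t s‖ₑ ^ q) _
    simp only [h2, Finset.prod_const, Finset.card_univ, Fintype.card_fin]
  · intro i
    exact ((eta_cont t).measurable.comp (measurable_id.sub_const _)).enorm.pow_const _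

/-- **the estimate** of finite sums, in the variable `z` -/
lemma win_z {ι : Type*} (F : Finset ι) (κ : ι → Fin m → ℝ) (q : ℝ) (hq : 2 ≤ q) (KK : ℝ≥0∞)
    (hK : ∀ c : ι → ℂ, ∫⁻ z in QQ m, ‖tri F κ c z‖ₑ ^ q ≤ KK * (∑ k ∈ F, ‖c k‖ₑ ^ 2) ^ (q / 2))
    (c : ι → ℂ) (t : ℝ) (ht : t ≠ 0) :
    ∫⁻ z : Fin m → ℝ, ‖∫ v, Wm v * (tri F κ c v * em (fun i => -(2 * t * z i)) t v)‖ₑ ^ q ≤
      KK * (∑ k ∈ F, ‖c k‖ₑ ^ 2) ^ (q / 2) * (∫⁻ s, ‖eta t s‖ₑ ^ q) ^ m := by
  have hq0 : 0 < q := by linarith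
  set b : ι → ℂ := fun k => c k * ec (-(sq2 (κ k) / (4 * t))) with hb
  have hbn : ∀ k, ‖b k‖ₑ = ‖c k‖ₑ := by
    intro k
    rw [hb]
    simp only
    rw [enorm_mul, ec_enorm, mul_one]
  set G : (Fin m → ℝ) → (Fin m → ℝ) → ℂ := fun z x =>
    ∑ k ∈ F, b k * ec (dt (κ k) z) * He t (κ k) x with hG
  have hGc : Continuous (fun w : (Fin m → ℝ) × (Fin m → ℝ) => G w.1 w.2) := by
    rw [hG]
    apply continuous_finsetSum
    intro k _
    apply Continuous.mul
    · exact continuous_const.mul (ec_cont.comp ((dt_cont _).comp continuous_fst))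
    · exact (He_cont t _).comp continuous_snd
  have hGm : Measurable (fun w : (Fin m → ℝ) × (Fin m → ℝ) => ‖G w.1 w.2‖ₑ ^ q) :=
    hGc.measurable.enorm.pow_const _
  -- pointwise bound
  have h1 : ∀ z : Fin m → ℝ, ‖∫ v, Wm v * (tri F κ c v * em (fun i => -(2 * t * z i)) t v)‖ₑ ^ q ≤
      ∫⁻ x, (QQ m).indicator (fun _ => (1 : ℝ≥0∞)) (z - x) * ‖G z x‖ₑ ^ q := by
    intro z
    rw [win_rep F κ c t ht z, enorm_mul, ec_enorm, one_mul]
    have h2 : ‖∫ x, (∏ i, i1 (z i - x i)) * G z x‖ₑ ≤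
        ∫⁻ x in {x | z - x ∈ QQ m}, ‖G z x‖ₑ := by
      refine (enorm_integral_le_lintegral_enorm _).trans (le_of_eq ?_)
      have hs : MeasurableSet {x : Fin m → ℝ | z - x ∈ QQ m} :=
        (measurable_const.sub measurable_id) measurableSet_Icc
      rw [← lintegral_indicator hs]
      congr 1
      ext x
      rw [enorm_mul, enorm_ind]
      by_cases hx : z - x ∈ QQ m
      · rw [indicator_of_mem hx, indicator_of_mem (show x ∈ {x : Fin m → ℝ | z - x ∈ QQ m} from hx),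
          one_mul]
      · rw [indicator_of_notMem hx,
          indicator_of_notMem (show x ∉ {x : Fin m → ℝ | z - x ∈ QQ m} from hx), zero_mul]
    have hs : MeasurableSet {x : Fin m → ℝ | z - x ∈ QQ m} :=
      (measurable_const.sub measurable_id) measurableSet_Icc
    have hvol : volume {x : Fin m → ℝ | z - x ∈ QQ m} = 1 := by
      have h3 : {x : Fin m → ℝ | z - x ∈ QQ m} = Icc (fun i => z i - 1 / 2) (fun i => z i + 1 / 2) := by
        ext x
        simp only [mem_ofPred_eq, mem_Icc, Pi.le_def, Pi.sub_apply]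
        constructor
        · rintro ⟨h1, h2⟩
          exact ⟨fun i => by linarith [h2 i], fun i => by linarith [h1 i]⟩
        · rintro ⟨h1, h2⟩
          exact ⟨fun i => by linarith [h2 i], fun i => by linarith [h1 i]⟩
      rw [h3, Real.volume_Icc_pi]
      have h4 : ∀ i : Fin m, ENNReal.ofReal (z i + 1 / 2 - (z i - 1 / 2)) = 1 := by
        intro i
        rw [show z i + 1 / 2 - (z i - 1 / 2) = 1 by ring, ENNReal.ofReal_one]
      simp only [h4, Finset.prod_const_one]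
    have hGz : Measurable (fun x => ‖G z x‖ₑ) := by
      have h5 : Measurable (fun x : Fin m → ℝ => (z, x)) := measurable_const.prodMk measurable_id
      exact (hGc.measurable.comp h5).enorm
    have h6 := Pool.Agent.W771.MD.jens (volume.restrict {x : Fin m → ℝ | z - x ∈ QQ m})
      (fun x => ‖G z x‖ₑ) hGz q (by linarith)
    rw [Measure.restrict_apply_univ, hvol, ENNReal.one_rpow, one_mul] at h6
    refine (ENNReal.rpow_le_rpow h2 hq0.le).trans (h6.trans (le_of_eq ?_))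
    rw [← lintegral_indicator hs]
    congr 1
    ext x
    by_cases hx : z - x ∈ QQ m
    · rw [indicator_of_mem hx, indicator_of_mem (show x ∈ {x : Fin m → ℝ | z - x ∈ QQ m} from hx),
        one_mul]
    · rw [indicator_of_notMem hx,
        indicator_of_notMem (show x ∉ {x : Fin m → ℝ | z - x ∈ QQ m} from hx), zero_mul]
  refine (lintegral_mono h1).trans ?_
  -- exchange
  have hmeas : Measurable (Function.uncurry fun z x : Fin m → ℝ =>
      (QQ m).indicator (fun _ => (1 : ℝ≥0∞)) (z - x) * ‖G z x‖ₑ ^ q) := by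
    apply Measurable.mul _ hGm
    have h5 : Measurable (fun w : (Fin m → ℝ) × (Fin m → ℝ) => w.1 - w.2) :=
      measurable_fst.sub measurable_snd
    exact (measurable_const.indicator measurableSet_Icc).comp h5
  rw [lintegral_lintegral_swap hmeas.aemeasurable]
  -- the inner integral
  have h2 : ∀ x : Fin m → ℝ, ∫⁻ z, (QQ m).indicator (fun _ => (1 : ℝ≥0∞)) (z - x) * ‖G z x‖ₑ ^ q ≤
      KK * (∑ k ∈ F, ‖c k‖ₑ ^ 2 * ‖He t (κ k) x‖ₑ ^ 2) ^ (q / 2) := by
    intro x
    rw [← lintegral_add_right_eq_self _ x]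
    simp only [add_sub_cancel_right]
    have h3 : ∀ z, G (z + x) x = tri F κ (fun k => b k * ec (dt (κ k) x) * He t (κ k) x) z := by
      intro z
      rw [hG]
      unfold tri
      simp only
      apply Finset.sum_congr rfl
      intro k _
      rw [dt_add, ec_add]
      ring
    have h4 : ∫⁻ z, (QQ m).indicator (fun _ => (1 : ℝ≥0∞)) z * ‖G (z + x) x‖ₑ ^ q =
        ∫⁻ z in QQ m, ‖tri F κ (fun k => b k * ec (dt (κ k) x) * He t (κ k) x) z‖ₑ ^ q := by
      rw [← lintegral_indicator measurableSet_Icc]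
      congr 1
      ext z
      rw [h3]
      by_cases hz : z ∈ QQ m
      · rw [indicator_of_mem hz, indicator_of_mem hz, one_mul]
      · rw [indicator_of_notMem hz, indicator_of_notMem hz, zero_mul]
    rw [h4]
    refine (hK _).trans (le_of_eq ?_)
    congr 2
    apply Finset.sum_congr rfl
    intro k _
    rw [enorm_mul, enorm_mul, ec_enorm, mul_one, hbn, mul_pow]
  refine (lintegral_mono h2).trans ?_
  -- convexity
  set S : ℝ≥0∞ := ∑ k ∈ F, ‖c k‖ₑ ^ 2 with hS
  have hSt : S ≠ ∞ := (ENNReal.sum_lt_top.mpr fun i _ => ENNReal.pow_lt_top enorm_lt_top).ne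
  have h3 : ∀ x : Fin m → ℝ, KK * (∑ k ∈ F, ‖c k‖ₑ ^ 2 * ‖He t (κ k) x‖ₑ ^ 2) ^ (q / 2) ≤
      KK * (S ^ (q / 2 - 1) * ∑ k ∈ F, ‖c k‖ₑ ^ 2 * ‖He t (κ k) x‖ₑ ^ q) := by
    intro x
    gcongr
    have := convex_sum F (fun k => ‖c k‖ₑ ^ 2) (fun k => ‖He t (κ k) x‖ₑ ^ 2) (q / 2) (by linarith)
      (fun i _ => (ENNReal.pow_lt_top enorm_lt_top).ne)
    refine this.trans (le_of_eq ?_)
    congr 1
    apply Finset.sum_congr rfl
    intro k _
    congr 1
    rw [← ENNReal.rpow_natCast, ← ENNReal.rpow_mul]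
    congr 1
    push_cast
    ring
  refine (lintegral_mono h3).trans ?_
  have hHm : ∀ k, Measurable (fun x => ‖c k‖ₑ ^ 2 * ‖He t (κ k) x‖ₑ ^ q) := fun k =>
    ((He_meas t (κ k)).enorm.pow_const q).const_mul _
  have hsm : Measurable (fun x => ∑ k ∈ F, ‖c k‖ₑ ^ 2 * ‖He t (κ k) x‖ₑ ^ q) :=
    Finset.measurable_fun_sum _ fun k _ => hHm k
  rw [lintegral_const_mul _ (hsm.const_mul _), lintegral_const_mul _ hsm,
    lintegral_finsetSum _ fun k _ => hHm k]
  have h4 : ∑ k ∈ F, ∫⁻ x, ‖c k‖ₑ ^ 2 * ‖He t (κ k) x‖ₑ ^ q =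
      S * (∫⁻ s, ‖eta t s‖ₑ ^ q) ^ m := by
    rw [hS, Finset.sum_mul]
    apply Finset.sum_congr rfl
    intro k _
    rw [lintegral_const_mul _ ((He_meas t (κ k)).enorm.pow_const q), He_lint q t (by linarith)]
  rw [h4]
  have h5 : S ^ (q / 2 - 1) * S ≤ S ^ (q / 2) := by
    by_cases h0 : S = 0
    · rw [h0, mul_zero]
      exact zero_le
    · nth_rewrite 2 [← ENNReal.rpow_one S]
      rw [← ENNReal.rpow_add _ _ h0 hSt]
      exact le_of_eq (by congr 1; ring)
  calc KK * (S ^ (q / 2 - 1) * (S * (∫⁻ s, ‖eta t s‖ₑ ^ q) ^ m)) =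
      KK * (S ^ (q / 2 - 1) * S) * (∫⁻ s, ‖eta t s‖ₑ ^ q) ^ m := by ring
    _ ≤ _ := by gcongr

end Pool.Agent.Y183.LS
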