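import Pool.Agent.Y183.LS.D
set_option autoImplicit false

/-! Fourier series on the cube. -/

namespace Pool.Agent.Y183.LS

open MeasureTheory Set Complex Filter Topology
open scoped ENNReal NNReal

attribute [local instance] instMeasureSpaceUnitAddCircle

variable {m : ℕ}

lemma lint_smul (r : ℝ) (hr : r ≠ 0) (g : (Fin m → ℝ) → ℝ≥0∞) (hg : Measurable g) :
    ENNReal.ofReal (|r| ^ m) * ∫⁻ x, g (r • x) = ∫⁻ x, g x := by
  have h1 := Measure.map_addHaar_smul (volume : Measure (Fin m → ℝ)) hr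
  rw [Module.finrank_fin_fun] at h1
  have h2 : ∫⁻ x, g (r • x) = ENNReal.ofReal |(r ^ m)⁻¹| * ∫⁻ x, g x := by
    rw [← lintegral_map hg (measurable_const_smul r), h1, lintegral_smul_measure, smul_eq_mul]
  rw [h2, ← mul_assoc, ← ENNReal.ofReal_mul (by positivity), abs_inv, abs_pow,
    mul_inv_cancel₀ (by positivity), ENNReal.ofReal_one, one_mul]

lemma int_smul (r : ℝ) (g : (Fin m → ℝ) → ℂ) :
    ∫ x, g (r • x) = ((|r| ^ m : ℝ)⁻¹ : ℝ) • ∫ x, g x := by
  rw [Measure.integral_comp_smul, Module.finrank_fin_fun, abs_inv, abs_pow]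

/-- the half open cube of side one -/
def HC (m : ℕ) : Set (Fin m → ℝ) := {x | ∀ i, x i ∈ Ioc (-(1 / 2) : ℝ) (-(1 / 2) + 1)}

lemma HC_meas : MeasurableSet (HC m) :=
  MeasurableSet.univ_pi' (fun _ => measurableSet_Ioc)

/-- the function on the torus -/
noncomputable def onT (H : (Fin m → ℝ) → ℂ) (x : UnitAddTorus (Fin m)) : ℂ :=
  H (UnitAddTorus.measurableEquivPiIoc (fun _ : Fin m => -(1 / 2 : ℝ)) x).1

lemma onT_meas (H : (Fin m → ℝ) → ℂ) (hH : Measurable H) : Measurable (onT H) :=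
  hH.comp (measurable_subtype_coe.comp (UnitAddTorus.measurableEquivPiIoc _).measurable)

lemma onT_coe (H : (Fin m → ℝ) → ℂ) (x : Fin m → ℝ) (hx : x ∈ HC m) :
    onT H (fun i => (x i : UnitAddCircle)) = H x := by
  have h1 := (UnitAddTorus.measurableEquivPiIoc (fun _ : Fin m => -(1 / 2 : ℝ))).apply_symm_apply
    ⟨x, hx⟩
  rw [UnitAddTorus.coe_symm_measurableEquivPiIoc_apply] at h1
  unfold onT
  rw [h1]

/-- integer frequencies -/
noncomputable def iz (k : Fin m → ℤ) : Fin m → ℝ := fun i => (k i : ℝ)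

lemma mFourier_coe (k : Fin m → ℤ) (x : Fin m → ℝ) :
    UnitAddTorus.mFourier k (fun i => (x i : UnitAddCircle)) = ec (dt (iz k) x) := by
  unfold UnitAddTorus.mFourier
  simp only [ContinuousMap.coe_mk]
  unfold dt
  rw [ec_sum]
  apply Finset.prod_congr rfl
  intro i _
  rw [fourier_coe_apply]
  unfold ec iz
  congr 1
  push_cast
  ring

/-- the coefficients -/
noncomputable def cfu (H : (Fin m → ℝ) → ℂ) (k : Fin m → ℤ) : ℂ :=
  ∫ x in HC m, ec (-dt (iz k) x) * H x

lemma coeff_onT (H : (Fin m → ℝ) → ℂ) (k : Fin m → ℤ) :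
    UnitAddTorus.mFourierCoeff (onT H) k = cfu H k := by
  rw [UnitAddTorus.mFourierCoeff_eq_integral _ _ (fun _ => -(1 / 2 : ℝ))]
  unfold cfu
  change ∫ x in HC m, _ = _
  apply setIntegral_congr_fun HC_meas
  intro x hx
  simp only
  rw [onT_coe H x hx, mFourier_coe, smul_eq_mul]
  congr 2
  unfold dt iz
  rw [← Finset.sum_neg_distrib]
  apply Finset.sum_congr rfl
  intro i _
  rw [Pi.neg_apply]
  push_cast
  ring

lemma lint_torus (g : UnitAddTorus (Fin m) → ℝ≥0∞) :
    ∫⁻ x, g x = ∫⁻ x in HC m, g (fun i => (x i : UnitAddCircle)) :=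
  UnitAddTorus.lintegral_preimage g (fun _ => -(1 / 2 : ℝ))

/-- **Fourier series on the unit cube** -/
lemma fourier_unit (H : (Fin m → ℝ) → ℂ) (hH : Measurable H)
    (h2 : ∫⁻ x in HC m, ‖H x‖ₑ ^ 2 ≠ ∞) :
    Tendsto (fun F : Finset (Fin m → ℤ) =>
      ∫⁻ x in HC m, ‖H x - tri F iz (cfu H) x‖ₑ ^ 2) atTop (𝓝 0) ∧
    ∀ F : Finset (Fin m → ℤ), ∑ k ∈ F, ‖cfu H k‖ₑ ^ 2 ≤ ∫⁻ x in HC m, ‖H x‖ₑ ^ 2 := by
  have hm := onT_meas H hH
  have hnorm : ∫⁻ x, ‖onT H x‖ₑ ^ 2 = ∫⁻ x in HC m, ‖H x‖ₑ ^ 2 := by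
    rw [lint_torus]
    apply setLIntegral_congr_fun HC_meas
    intro x hx
    simp only
    rw [onT_coe H x hx]
  have hmem : MemLp (onT H) 2 volume := by
    refine ⟨hm.aestronglyMeasurable, ?_⟩
    rw [eLpNorm_lt_top_iff_lintegral_rpow_enorm_lt_top (by norm_num) (by norm_num)]
    simp only [ENNReal.toReal_ofNat, ENNReal.rpow_ofNat]
    rw [hnorm]
    exact lt_top_iff_ne_top.mpr h2
  set f : Lp ℂ 2 (volume : Measure (UnitAddTorus (Fin m))) := hmem.toLp (onT H) with hf
  have hfc : ⇑f =ᵐ[volume] onT H := hmem.coeFn_toLp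
  have hco : ∀ k, UnitAddTorus.mFourierCoeff f k = cfu H k := by
    intro k
    rw [← coeff_onT]
    unfold UnitAddTorus.mFourierCoeff
    apply integral_congr_ae
    filter_upwards [hfc] with x hx
    rw [hx]
  constructor
  · have h3 := UnitAddTorus.hasSum_mFourier_series_L2 f
    have h4 : Tendsto (fun F : Finset (Fin m → ℤ) =>
        ‖f - ∑ k ∈ F, UnitAddTorus.mFourierCoeff f k • UnitAddTorus.mFourierLp 2 k‖ₑ ^ (2 : ℝ))
        atTop (𝓝 0) := by
      have h5 : Tendsto (fun F : Finset (Fin m → ℤ) =>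
          f - ∑ k ∈ F, UnitAddTorus.mFourierCoeff f k • UnitAddTorus.mFourierLp 2 k)
          atTop (𝓝 (f - f)) := tendsto_const_nhds.sub h3
      rw [sub_self] at h5
      have h6 := (continuous_enorm.tendsto _).comp h5
      rw [enorm_zero] at h6
      have h7 := (ENNReal.continuous_rpow_const (y := (2 : ℝ))).tendsto 0
      rw [ENNReal.zero_rpow_of_pos (by norm_num)] at h7
      exact h7.comp h6
    refine h4.congr fun F => ?_
    have h8 : ⇑(f - ∑ k ∈ F, UnitAddTorus.mFourierCoeff f k • UnitAddTorus.mFourierLp 2 k) =ᵐ[volume]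
        fun x => onT H x - ∑ k ∈ F, cfu H k * UnitAddTorus.mFourier k x := by
      have h9 : ⇑(∑ k ∈ F, UnitAddTorus.mFourierCoeff f k • UnitAddTorus.mFourierLp (d := Fin m) 2 k)
          =ᵐ[volume] fun x => ∑ k ∈ F, cfu H k * UnitAddTorus.mFourier k x := by
        have h10 := Lp.coeFn_finsetSum F
          (fun k => UnitAddTorus.mFourierCoeff f k • UnitAddTorus.mFourierLp (d := Fin m) 2 k)
        refine h10.trans ?_
        have h11 : ∀ᵐ x, ∀ k ∈ F, (UnitAddTorus.mFourierCoeff f k •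
            UnitAddTorus.mFourierLp (d := Fin m) 2 k : Lp ℂ 2 volume) x =
            cfu H k * UnitAddTorus.mFourier k x := by
          rw [Finset.eventually_all F]
          intro k _
          filter_upwards [Lp.coeFn_smul (UnitAddTorus.mFourierCoeff f k)
            (UnitAddTorus.mFourierLp (d := Fin m) 2 k),
            UnitAddTorus.coeFn_mFourierLp (d := Fin m) 2 k] with x hx1 hx2
          rw [hx1, Pi.smul_apply, hx2, hco, smul_eq_mul]
        filter_upwards [h11] with x hx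
        rw [Finset.sum_apply]
        exact Finset.sum_congr rfl hx
      filter_upwards [Lp.coeFn_sub f (∑ k ∈ F, UnitAddTorus.mFourierCoeff f k •
        UnitAddTorus.mFourierLp (d := Fin m) 2 k), h9, hfc] with x hx1 hx2 hx3
      rw [hx1, Pi.sub_apply, hx2, hx3]
    rw [Lp.enorm_def, eLpNorm_congr_ae h8, eLpNorm_eq_lintegral_rpow_enorm_toReal (by norm_num)
      (by norm_num), ← ENNReal.rpow_mul]
    simp only [ENNReal.toReal_ofNat, ENNReal.rpow_ofNat]
    norm_num
    rw [lint_torus]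
    apply setLIntegral_congr_fun HC_meas
    intro x hx
    simp only
    rw [onT_coe H x hx]
    simp only [mFourier_coe]
    rfl
  · intro F
    have h3 := UnitAddTorus.hasSum_sq_mFourierCoeff f
    have h4 : ∑ k ∈ F, ‖UnitAddTorus.mFourierCoeff f k‖ ^ 2 ≤ ∫ t, ‖f t‖ ^ 2 :=
      sum_le_hasSum F (fun k _ => by positivity) h3
    have h5 : ENNReal.ofReal (∫ t, ‖f t‖ ^ 2) = ∫⁻ x in HC m, ‖H x‖ₑ ^ 2 := by
      rw [← hnorm, ofReal_integral_eq_lintegral_ofReal]
      · apply lintegral_congr_ae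
        filter_upwards [hfc] with x hx
        rw [hx, ENNReal.ofReal_pow (norm_nonneg _), ofReal_norm]
      · exact (memLp_two_iff_integrable_sq_norm (Lp.memLp f).1).mp (Lp.memLp f)
      · exact ae_of_all _ fun x => by positivity
    rw [← h5]
    refine le_trans (le_of_eq ?_) (ENNReal.ofReal_le_ofReal h4)
    rw [ENNReal.ofReal_sum_of_nonneg fun k _ => by positivity]
    apply Finset.sum_congr rfl
    intro k _
    rw [ENNReal.ofReal_pow (norm_nonneg _), ofReal_norm, hco]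

end Pool.Agent.Y183.LS
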