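import Pool.Agent.Y183.LS.E
set_option autoImplicit false

/-! Fourier series on cubes of arbitrary size. -/

namespace Pool.Agent.Y183.LS

open MeasureTheory Set Complex Filter Topology
open scoped ENNReal NNReal

variable {m : ℕ}

/-- the cube of half side `A` -/
abbrev BA (A : ℝ) (m : ℕ) : Set (Fin m → ℝ) := Icc (fun _ => -A) (fun _ => A)

lemma HC_eq : (volume : Measure (Fin m → ℝ)).restrict (HC m) = volume.restrict (QQ m) := by
  have h1 : HC m = Set.pi univ (fun _ => Ioc (-(1 / 2) : ℝ) (-(1 / 2) + 1)) := by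
    ext x
    simp [HC]
  have h2 : QQ m = Set.pi univ (fun _ => Icc (-(1 / 2) : ℝ) (1 / 2)) := by
    unfold QQ
    rw [Set.pi_univ_Icc]
  rw [h1, h2, volume_pi, Measure.restrict_pi_pi, Measure.restrict_pi_pi]
  congr 1
  ext i : 1
  rw [restrict_Ioc_eq_restrict_Icc]
  norm_num

lemma smul_mem_BA (A : ℝ) (hA : 0 < A) (x : Fin m → ℝ) : (2 * A) • x ∈ BA A m ↔ x ∈ QQ m := by
  simp only [BA, QQ, mem_Icc, Pi.le_def, Pi.smul_apply, smul_eq_mul]
  constructor
  · rintro ⟨h1, h2⟩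
    exact ⟨fun i => by nlinarith [h1 i], fun i => by nlinarith [h2 i]⟩
  · rintro ⟨h1, h2⟩
    exact ⟨fun i => by nlinarith [h1 i], fun i => by nlinarith [h2 i]⟩

lemma lint_BA (A : ℝ) (hA : 0 < A) (g : (Fin m → ℝ) → ℝ≥0∞) (hg : Measurable g) :
    ∫⁻ v in BA A m, g v = ENNReal.ofReal ((2 * A) ^ m) * ∫⁻ x in HC m, g ((2 * A) • x) := by
  have h1 := lint_smul (2 * A) (by positivity) ((BA A m).indicator g)
    (hg.indicator measurableSet_Icc)
  rw [abs_of_pos (by positivity)] at h1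
  rw [← lintegral_indicator measurableSet_Icc, ← h1]
  congr 1
  rw [HC_eq, ← lintegral_indicator measurableSet_Icc]
  congr 1
  ext x
  by_cases hx : x ∈ QQ m
  · rw [indicator_of_mem hx, indicator_of_mem ((smul_mem_BA A hA x).mpr hx)]
  · rw [indicator_of_notMem hx, indicator_of_notMem (fun h => hx ((smul_mem_BA A hA x).mp h))]

lemma int_BA (A : ℝ) (hA : 0 < A) (g : (Fin m → ℝ) → ℂ) :
    ∫ x in HC m, g ((2 * A) • x) = (((2 * A) ^ m)⁻¹ : ℝ) • ∫ v in BA A m, g v := by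
  have h1 := int_smul (2 * A) ((BA A m).indicator g)
  rw [abs_of_pos (by positivity), integral_indicator measurableSet_Icc] at h1
  rw [← h1, HC_eq, ← integral_indicator measurableSet_Icc]
  congr 1
  ext x
  by_cases hx : x ∈ QQ m
  · rw [indicator_of_mem hx, indicator_of_mem ((smul_mem_BA A hA x).mpr hx)]
  · rw [indicator_of_notMem hx, indicator_of_notMem (fun h => hx ((smul_mem_BA A hA x).mp h))]

/-- the frequencies -/
noncomputable def izA (A : ℝ) (k : Fin m → ℤ) : Fin m → ℝ := fun i => (k i : ℝ) / (2 * A)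

/-- the coefficients -/
noncomputable def cfA (A : ℝ) (G : (Fin m → ℝ) → ℂ) (k : Fin m → ℤ) : ℂ :=
  (((2 * A) ^ m)⁻¹ : ℝ) • ∫ v in BA A m, ec (-dt (izA A k) v) * G v

lemma dt_izA (A : ℝ) (hA : 0 < A) (k : Fin m → ℤ) (x : Fin m → ℝ) :
    dt (izA A k) ((2 * A) • x) = dt (iz k) x := by
  unfold dt izA iz
  apply Finset.sum_congr rfl
  intro i _
  rw [Pi.smul_apply, smul_eq_mul]
  field_simp

lemma cfA_eq (A : ℝ) (hA : 0 < A) (G : (Fin m → ℝ) → ℂ) (k : Fin m → ℤ) :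
    cfA A G k = cfu (fun x => G ((2 * A) • x)) k := by
  unfold cfA cfu
  rw [← int_BA A hA]
  simp only [dt_izA A hA]

/-- **Fourier series on a cube** -/
lemma fourier_cube (A : ℝ) (hA : 0 < A) (G : (Fin m → ℝ) → ℂ) (hG : Measurable G)
    (h2 : ∫⁻ v in BA A m, ‖G v‖ₑ ^ 2 ≠ ∞) :
    Tendsto (fun F : Finset (Fin m → ℤ) =>
      ∫⁻ v in BA A m, ‖G v - tri F (izA A) (cfA A G) v‖ₑ ^ 2) atTop (𝓝 0) ∧
    ∀ F : Finset (Fin m → ℤ), ENNReal.ofReal ((2 * A) ^ m) * ∑ k ∈ F, ‖cfA A G k‖ₑ ^ 2 ≤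
      ∫⁻ v in BA A m, ‖G v‖ₑ ^ 2 := by
  set H : (Fin m → ℝ) → ℂ := fun x => G ((2 * A) • x) with hH
  have hHm : Measurable H := hG.comp (measurable_const_smul _)
  have hc0 : ENNReal.ofReal ((2 * A) ^ m) ≠ 0 := by
    rw [Ne, ENNReal.ofReal_eq_zero, not_le]
    positivity
  have hG2 : Measurable (fun v => ‖G v‖ₑ ^ 2) := hG.enorm.pow_const 2
  have h3 := lint_BA A hA _ hG2
  have h4 : ∫⁻ x in HC m, ‖H x‖ₑ ^ 2 ≠ ∞ := by
    intro hc
    rw [h3] at h2
    apply h2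
    have hc' : ∫⁻ x in HC m, ‖G ((2 * A) • x)‖ₑ ^ 2 = ∞ := hc
    rw [hc', ENNReal.mul_top hc0]
  obtain ⟨h5, h6⟩ := fourier_unit H hHm h4
  have hcf : cfA A G = cfu H := by
    ext k
    exact cfA_eq A hA G k
  constructor
  · have h7 := ENNReal.Tendsto.const_mul (a := ENNReal.ofReal ((2 * A) ^ m)) h5
      (Or.inr ENNReal.ofReal_ne_top)
    rw [mul_zero] at h7
    refine h7.congr fun F => ?_
    have h8 : Measurable (fun v => ‖G v - tri F (izA A) (cfA A G) v‖ₑ ^ 2) :=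
      (hG.sub (tri_cont _ _ _).measurable).enorm.pow_const 2
    rw [lint_BA A hA _ h8]
    congr 2
    ext x
    congr 3
    rw [hcf]
    unfold tri
    simp only [dt_izA A hA]
  · intro F
    rw [h3, hcf]
    gcongr
    exact h6 F

end Pool.Agent.Y183.LS
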