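import Pool.Agent.Y183.LS.F
import Pool.Agent.Helper576.Riesz5
set_option autoImplicit false

/-! The Fourier series of the indicator function of an interval; the discrete Hilbert transform. -/

namespace Pool.Agent.Y183.LS

open MeasureTheory Set Complex Filter Topology
open scoped ENNReal NNReal
open Pool.Agent.Helper576.LpMult (MB MB_hk hk)

/-- the Fourier coefficients of the indicator function of `[-1,1]` on `[-2,2]` -/
noncomputable def cc (n : ℤ) : ℂ :=
  if n = 0 then 1 / 2 else (ec (n / 4) - ec (-(n / 4))) / (2 * Real.pi * I * n)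

lemma cc_neg (n : ℤ) : cc (-n) = cc n := by
  unfold cc
  by_cases h : n = 0
  · simp [h]
  · rw [if_neg h, if_neg (by simpa using h)]
    push_cast
    rw [neg_div, neg_neg]
    have hn : (n : ℂ) ≠ 0 := by exact_mod_cast h
    have hpi : (Real.pi : ℂ) ≠ 0 := by exact_mod_cast Real.pi_ne_zero
    field_simp [I_ne_zero]
    ring

lemma cc_split (n : ℤ) : cc n = (if n = 0 then 1 / 2 else 0) +
    ((2 * Real.pi * I)⁻¹ * (ec (n / 4) * hk n) + (-(2 * Real.pi * I)⁻¹) * (ec (-(n / 4)) * hk n)) := by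
  unfold cc hk
  by_cases h : n = 0
  · simp [h]
  · rw [if_neg h, if_neg h]
    have hn : (n : ℂ) ≠ 0 := by exact_mod_cast h
    have hpi : (Real.pi : ℂ) ≠ 0 := by exact_mod_cast Real.pi_ne_zero
    field_simp [I_ne_zero]
    ring

lemma ec_neg (x : ℝ) : ec (-x) = (ec x)⁻¹ := by
  apply eq_inv_of_mul_eq_one_left
  rw [← ec_add, neg_add_cancel, ec_zero]

lemma MB_cc (q : ℝ) (hq : 1 < q) : ∃ C : ℝ, 0 ≤ C ∧ MB q C cc := by
  obtain ⟨C, hC, h⟩ := MB_hk hq
  have hq0 : 0 < q := by linarith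
  have h1 : MB q C (fun n => ec ((n : ℝ) / 4) * hk n) := by
    apply h.mod (fun n : ℤ => ec ((n : ℝ) / 4))
    · intro a b
      rw [← ec_neg, ← ec_add]
      congr 1
      push_cast
      ring
    · intro n
      exact ec_norm _
  have h2 : MB q C (fun n => ec (-((n : ℝ) / 4)) * hk n) := by
    apply h.mod (fun n : ℤ => ec (-((n : ℝ) / 4)))
    · intro a b
      rw [← ec_neg, ← ec_add]
      congr 1
      push_cast
      ring
    · intro n
      exact ec_norm _
  have h3 : MB q (1 / 2) (fun n : ℤ => if n = 0 then (1 / 2 : ℂ) else 0) := by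
    apply Pool.Agent.Helper576.LpMult.MB_of_summable hq.le
    intro s
    have e1 : ∀ n : ℤ, ‖(if n = 0 then (1 / 2 : ℂ) else 0)‖ = if n = 0 then (1 / 2 : ℝ) else 0 := by
      intro n
      split_ifs
      · norm_num
      · simp
    simp only [e1]
    rw [Finset.sum_ite_eq']
    split_ifs <;> norm_num
  have h4 := h1.smul hq0 hC ((2 * Real.pi * I)⁻¹)
  have h5 := h2.smul hq0 hC (-(2 * Real.pi * I)⁻¹)
  have h6 := h4.add hq.le (by positivity) (by positivity) h5
  have h7 := h3.add hq.le (by norm_num) (by positivity) h6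
  refine ⟨1 / 2 + (‖((2 : ℂ) * Real.pi * I)⁻¹‖ * C + ‖-((2 : ℂ) * Real.pi * I)⁻¹‖ * C), ?_, ?_⟩
  · positivity
  · have e : cc = fun n : ℤ => (if n = 0 then (1 / 2 : ℂ) else 0) +
        ((2 * Real.pi * I)⁻¹ * (ec ((n : ℝ) / 4) * hk n) +
          (-(2 * Real.pi * I)⁻¹) * (ec (-((n : ℝ) / 4)) * hk n)) := by
      ext n
      exact cc_split n
    rw [e]
    exact h7

/-- the indicator function of `[-1,1]` -/
noncomputable def j1 (x : ℝ) : ℂ := (Icc (-1 : ℝ) 1).indicator (fun _ => (1 : ℂ)) x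

lemma j1_meas : Measurable j1 := measurable_const.indicator measurableSet_Icc

lemma j1_norm (x : ℝ) : ‖j1 x‖ ≤ 1 := by
  unfold j1
  refine (norm_indicator_le_norm_self _ _).trans ?_
  simp

/-- the partial sums -/
noncomputable def Ds (s : Finset ℤ) (x : ℝ) : ℂ := ∑ n ∈ s, cc n * ec (n * x / 4)

lemma cc_eq (n : ℤ) : (4 : ℝ)⁻¹ • ∫ x in Icc (-2 : ℝ) 2, ec (-(n * x / 4)) * j1 x = cc n := by
  have h1 : ∫ x in Icc (-2 : ℝ) 2, ec (-(n * x / 4)) * j1 x =
      ∫ x in (-1 : ℝ)..1, ec (-(n * x / 4)) := by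
    rw [intervalIntegral.integral_of_le (by norm_num), ← integral_Icc_eq_integral_Ioc,
      ← integral_indicator measurableSet_Icc, ← integral_indicator measurableSet_Icc]
    congr 1
    ext x
    unfold j1
    by_cases hx : x ∈ Icc (-1 : ℝ) 1
    · rw [indicator_of_mem hx, indicator_of_mem (show x ∈ Icc (-2 : ℝ) 2 from
        ⟨by linarith [hx.1], by linarith [hx.2]⟩), indicator_of_mem hx, mul_one]
    · rw [indicator_of_notMem hx]
      by_cases hx2 : x ∈ Icc (-2 : ℝ) 2
      · rw [indicator_of_mem hx2, indicator_of_notMem hx, mul_zero]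
      · rw [indicator_of_notMem hx2]
  rw [h1]
  unfold cc
  by_cases h : n = 0
  · simp only [h, Int.cast_zero, zero_mul, zero_div, neg_zero, ec_zero, if_true]
    rw [intervalIntegral.integral_const]
    norm_num
  · rw [if_neg h]
    have hn : (n : ℂ) ≠ 0 := by exact_mod_cast h
    have hpi : (Real.pi : ℂ) ≠ 0 := by exact_mod_cast Real.pi_ne_zero
    have e1 : ∀ x : ℝ, ec (-(n * x / 4)) = cexp ((-(2 * Real.pi * I * n / 4)) * (x : ℂ)) := by
      intro x
      unfold ec
      congr 1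
      push_cast
      ring
    have hc : (-(2 * Real.pi * I * n / 4)) ≠ 0 := by
      rw [neg_ne_zero]
      apply div_ne_zero _ (by norm_num)
      exact mul_ne_zero (mul_ne_zero (mul_ne_zero (by norm_num) hpi) I_ne_zero) hn
    simp only [e1]
    rw [integral_exp_mul_complex hc]
    have e2 : cexp (-(2 * Real.pi * I * n / 4) * ((1 : ℝ) : ℂ)) = ec (-(n / 4)) := by
      unfold ec
      congr 1
      push_cast
      ring
    have e3 : cexp (-(2 * Real.pi * I * n / 4) * ((-1 : ℝ) : ℂ)) = ec (n / 4) := by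
      unfold ec
      congr 1
      push_cast
      ring
    rw [e2, e3]
    rw [Complex.real_smul]
    push_cast
    field_simp [I_ne_zero]
    ring

/-- **convergence in mean square** -/
lemma Ds_tendsto : Tendsto (fun s : Finset ℤ => ∫⁻ x in Icc (-2 : ℝ) 2, ‖j1 x - Ds s x‖ₑ ^ 2)
    atTop (𝓝 0) := by
  have hmp := volume_preserving_funUnique (Fin 1) ℝ
  have hmem : ∀ v : Fin 1 → ℝ, v ∈ BA 2 1 ↔ v 0 ∈ Icc (-2 : ℝ) 2 := by
    intro v
    simp only [BA, mem_Icc, Pi.le_def]
    constructor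
    · rintro ⟨h1, h2⟩
      exact ⟨h1 0, h2 0⟩
    · rintro ⟨h1, h2⟩
      exact ⟨fun i => by rw [Subsingleton.elim i 0]; exact h1,
        fun i => by rw [Subsingleton.elim i 0]; exact h2⟩
  have hlint : ∀ g : ℝ → ℝ≥0∞, ∫⁻ v in BA 2 1, g (v 0) = ∫⁻ x in Icc (-2 : ℝ) 2, g x := by
    intro g
    rw [← lintegral_indicator measurableSet_Icc, ← lintegral_indicator measurableSet_Icc,
      ← hmp.lintegral_comp_emb (MeasurableEquiv.measurableEmbedding _)]
    congr 1
    ext v
    have h0 : (MeasurableEquiv.funUnique (Fin 1) ℝ) v = v 0 := rfl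
    rw [h0]
    by_cases hv : v ∈ BA 2 1
    · rw [indicator_of_mem hv, indicator_of_mem ((hmem v).mp hv)]
    · rw [indicator_of_notMem hv, indicator_of_notMem (fun h => hv ((hmem v).mpr h))]
  have hint : ∀ g : ℝ → ℂ, ∫ v in BA 2 1, g (v 0) = ∫ x in Icc (-2 : ℝ) 2, g x := by
    intro g
    rw [← integral_indicator measurableSet_Icc, ← integral_indicator measurableSet_Icc,
      ← hmp.integral_comp (MeasurableEquiv.measurableEmbedding _)]
    congr 1
    ext v
    have h0 : (MeasurableEquiv.funUnique (Fin 1) ℝ) v = v 0 := rfl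
    rw [h0]
    by_cases hv : v ∈ BA 2 1
    · rw [indicator_of_mem hv, indicator_of_mem ((hmem v).mp hv)]
    · rw [indicator_of_notMem hv, indicator_of_notMem (fun h => hv ((hmem v).mpr h))]
  set G : (Fin 1 → ℝ) → ℂ := fun v => j1 (v 0) with hG
  have hGm : Measurable G := j1_meas.comp (measurable_pi_apply 0)
  have hfin : ∫⁻ v in BA 2 1, ‖G v‖ₑ ^ 2 ≠ ∞ := by
    rw [hlint (fun x => ‖j1 x‖ₑ ^ 2)]
    refine ne_top_of_le_ne_top (b := ∫⁻ x in Icc (-2 : ℝ) 2, 1) ?_ ?_
    · rw [lintegral_one, Measure.restrict_apply_univ, Real.volume_Icc]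
      exact ENNReal.ofReal_ne_top
    · apply lintegral_mono
      intro x
      simp only
      have : ‖j1 x‖ₑ ≤ 1 := by
        rw [← ofReal_norm, ← ENNReal.ofReal_one]
        exact ENNReal.ofReal_le_ofReal (j1_norm x)
      exact pow_le_one₀ zero_le this
  obtain ⟨h1, -⟩ := fourier_cube 2 two_pos G hGm hfin
  -- the index sets
  have hdt : ∀ (k : Fin 1 → ℤ) (v : Fin 1 → ℝ), dt (izA 2 k) v = (k 0 : ℝ) * v 0 / 4 := by
    intro k v
    unfold dt izA
    rw [Fin.sum_univ_one]
    ring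
  have hcf : ∀ k : Fin 1 → ℤ, cfA 2 G k = cc (k 0) := by
    intro k
    rw [← cc_eq]
    unfold cfA
    simp only [hdt, hG]
    rw [hint (fun x => ec (-((k 0 : ℝ) * x / 4)) * j1 x)]
    norm_num
  set e : ℤ ≃ (Fin 1 → ℤ) := (Equiv.funUnique (Fin 1) ℤ).symm with he
  have he0 : ∀ n, e n 0 = n := fun n => rfl
  have hmap : Tendsto (fun s : Finset ℤ => s.map e.toEmbedding) atTop atTop := by
    apply tendsto_atTop_atTop.mpr
    intro b
    refine ⟨b.map e.symm.toEmbedding, fun a ha => ?_⟩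
    intro k hk
    rw [Finset.mem_map_equiv]
    apply ha
    rw [Finset.mem_map_equiv]
    simpa using hk
  refine (h1.comp hmap).congr fun s => ?_
  simp only [Function.comp_apply]
  rw [← hlint (fun x => ‖j1 x - Ds s x‖ₑ ^ 2)]
  congr 1
  ext v
  congr 3
  unfold tri Ds
  rw [Finset.sum_map]
  apply Finset.sum_congr rfl
  intro n _
  rw [hcf, hdt]
  rfl

end Pool.Agent.Y183.LS
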