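import Pool.Agent.Y183.LS.G
set_option autoImplicit false

/-! The theorem of M. Riesz for functions supported in a cube. -/

namespace Pool.Agent.Y183.LS

open MeasureTheory Set Complex Filter Topology
open scoped ENNReal NNReal
open Pool.Agent.Helper576.LpMult (MB MB_hk hk)

variable {m : ℕ}

/-- a square integrable function supported in the cube of half side two -/
structure Good (H : (Fin m → ℝ) → ℂ) : Prop where
  meas : Measurable H
  sq : ∫⁻ v, ‖H v‖ₑ ^ 2 ≠ ∞
  supp : ∀ v, v ∉ BA 2 m → H v = 0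

lemma BA_fin (A : ℝ) : volume (BA A m) < ∞ := by
  rw [Real.volume_Icc_pi]
  exact ENNReal.prod_lt_top fun _ _ => ENNReal.ofReal_lt_top

lemma Good.memLp {H : (Fin m → ℝ) → ℂ} (h : Good H) : MemLp H 2 volume := by
  refine ⟨h.meas.aestronglyMeasurable, ?_⟩
  rw [eLpNorm_lt_top_iff_lintegral_rpow_enorm_lt_top (by norm_num) (by norm_num)]
  simp only [ENNReal.toReal_ofNat, ENNReal.rpow_ofNat]
  exact lt_top_iff_ne_top.mpr h.sq

lemma Good.integrable {H : (Fin m → ℝ) → ℂ} (h : Good H) : Integrable H := by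
  have hf : IsFiniteMeasure (volume.restrict (BA 2 m)) := ⟨by
    rw [Measure.restrict_apply_univ]
    exact BA_fin 2⟩
  have h1 : IntegrableOn H (BA 2 m) := h.memLp.restrict (BA 2 m) |>.integrable (by norm_num)
  refine (integrableOn_iff_integrable_of_support_subset ?_).mp h1
  intro v hv
  by_contra hc
  exact hv (h.supp v hc)

/-- the transform -/
noncomputable def FT (H : (Fin m → ℝ) → ℂ) (y : Fin m → ℝ) : ℂ := ∫ v, H v * ec (dt y v)

lemma dt_comm (y v : Fin m → ℝ) : dt y v = dt v y := by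
  unfold dt
  exact Finset.sum_congr rfl fun i _ => mul_comm _ _

lemma dt_cont2 : Continuous fun w : (Fin m → ℝ) × (Fin m → ℝ) => dt w.1 w.2 := by
  unfold dt
  fun_prop

lemma FT_int {H : (Fin m → ℝ) → ℂ} (h : Good H) (φ : (Fin m → ℝ) → ℂ) (hφ : Measurable φ)
    (B : ℝ) (hb : ∀ v, ‖φ v‖ ≤ B) : Integrable (fun v => H v * φ v) :=
  h.integrable.mul_bdd hφ.aestronglyMeasurable (ae_of_all _ hb)

lemma FT_meas {H : (Fin m → ℝ) → ℂ} (h : Measurable H) : Measurable (FT H) := by
  unfold FT
  apply StronglyMeasurable.measurable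
  apply StronglyMeasurable.integral_prod_right'
    (f := fun w : (Fin m → ℝ) × (Fin m → ℝ) => H w.2 * ec (dt w.1 w.2))
  apply Measurable.stronglyMeasurable
  exact (h.comp measurable_snd).mul (ec_cont.comp dt_cont2).measurable

/-- restriction in one coordinate -/
noncomputable def cut (i : Fin m) (H : (Fin m → ℝ) → ℂ) (v : Fin m → ℝ) : ℂ := H v * j1 (v i)

lemma Good.cut {H : (Fin m → ℝ) → ℂ} (h : Good H) (i : Fin m) : Good (cut i H) := by
  have hn : ∀ v, ‖LS.cut i H v‖ₑ ≤ ‖H v‖ₑ := by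
    intro v
    unfold LS.cut
    rw [enorm_mul]
    have : ‖j1 (v i)‖ₑ ≤ 1 := by
      rw [← ofReal_norm, ← ENNReal.ofReal_one]
      exact ENNReal.ofReal_le_ofReal (j1_norm _)
    calc ‖H v‖ₑ * ‖j1 (v i)‖ₑ ≤ ‖H v‖ₑ * 1 := by gcongr
      _ = _ := mul_one _
  refine ⟨h.meas.mul (j1_meas.comp (measurable_pi_apply i)), ?_, ?_⟩
  · refine ne_top_of_le_ne_top h.sq (lintegral_mono fun v => ?_)
    gcongr
    exact hn v
  · intro v hv
    unfold LS.cut
    rw [h.supp v hv, zero_mul]

/-- the unit vector times a number -/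
noncomputable def uv (i : Fin m) (r : ℝ) : Fin m → ℝ := Pi.single i r

lemma dt_uv (i : Fin m) (r : ℝ) (v : Fin m → ℝ) : dt (uv i r) v = r * v i := by
  unfold dt uv
  rw [Finset.sum_eq_single i]
  · rw [Pi.single_eq_same]
  · intro j _ hj
    rw [Pi.single_eq_of_ne hj, zero_mul]
  · intro h
    exact absurd (Finset.mem_univ i) h

lemma dt_add_left (y z v : Fin m → ℝ) : dt (y + z) v = dt y v + dt z v := by
  rw [dt_comm, dt_add, dt_comm v y, dt_comm v z]

/-- integral of a function of one coordinate over the cube -/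
lemma lint_coord (i : Fin m) (g : ℝ → ℝ≥0∞) (hg : Measurable g) :
    ∫⁻ v in BA 2 m, g (v i) = 4 ^ (m - 1) * ∫⁻ x in Icc (-2 : ℝ) 2, g x := by
  set f : Fin m → ℝ → ℝ≥0∞ := fun j x =>
    (Icc (-2 : ℝ) 2).indicator (fun x => if j = i then g x else 1) x with hf
  have h1 : ∀ v : Fin m → ℝ, (BA 2 m).indicator (fun v => g (v i)) v = ∏ j, f j (v j) := by
    intro v
    by_cases hv : v ∈ BA 2 m
    · rw [indicator_of_mem hv]
      have h2 : ∀ j, f j (v j) = if j = i then g (v j) else 1 := by
        intro j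
        simp only [hf]
        rw [indicator_of_mem (show v j ∈ Icc (-2 : ℝ) 2 from ⟨hv.1 j, hv.2 j⟩)]
      simp only [h2]
      rw [Finset.prod_ite_eq' Finset.univ i (fun j => g (v j)), if_pos (Finset.mem_univ i)]
    · rw [indicator_of_notMem hv]
      have h2 : ∃ j, v j ∉ Icc (-2 : ℝ) 2 := by
        by_contra hc
        push Not at hc
        exact hv ⟨fun i => (hc i).1, fun i => (hc i).2⟩
      obtain ⟨j, hj⟩ := h2
      symm
      apply Finset.prod_eq_zero (Finset.mem_univ j)
      simp only [hf]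
      rw [indicator_of_notMem hj]
  rw [← lintegral_indicator measurableSet_Icc]
  simp only [h1]
  rw [lint_prod]
  · rw [← Finset.mul_prod_erase _ _ (Finset.mem_univ i)]
    have h3 : ∫⁻ x, f i x = ∫⁻ x in Icc (-2 : ℝ) 2, g x := by
      rw [← lintegral_indicator measurableSet_Icc]
      simp only [hf, if_true]
    have h4 : ∀ j ∈ Finset.univ.erase i, ∫⁻ x, f j x = 4 := by
      intro j hj
      simp only [hf, if_neg (Finset.ne_of_mem_erase hj)]
      rw [lintegral_indicator measurableSet_Icc, lintegral_one, Measure.restrict_apply_univ,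
        Real.volume_Icc]
      norm_num
    rw [h3, Finset.prod_congr rfl h4, Finset.prod_const, Finset.card_erase_of_mem
      (Finset.mem_univ i), Finset.card_univ, Fintype.card_fin, mul_comm]
  · intro j
    apply Measurable.indicator _ measurableSet_Icc
    split_ifs
    · exact hg
    · exact measurable_const

lemma Ds_cont (s : Finset ℤ) : Continuous (Ds s) := by
  unfold Ds
  apply continuous_finsetSum
  intro n _
  exact continuous_const.mul (ec_cont.comp (by fun_prop))

/-- **the sampling identity** -/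
lemma sampling {H : (Fin m → ℝ) → ℂ} (h : Good H) (i : Fin m) (y : Fin m → ℝ) :
    HasSum (fun n : ℤ => cc n * FT H (y + uv i ((n : ℝ) / 4))) (FT (cut i H) y) := by
  have h1 : ∀ s : Finset ℤ, ∑ n ∈ s, cc n * FT H (y + uv i ((n : ℝ) / 4)) =
      ∫ v, H v * (ec (dt y v) * Ds s (v i)) := by
    intro s
    have h2 : ∀ v, H v * (ec (dt y v) * Ds s (v i)) =
        ∑ n ∈ s, cc n * (H v * ec (dt (y + uv i ((n : ℝ) / 4)) v)) := by
      intro v
      unfold Ds
      rw [Finset.mul_sum, Finset.mul_sum]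
      apply Finset.sum_congr rfl
      intro n _
      rw [dt_add_left, dt_uv, ec_add, div_mul_eq_mul_div]
      ring
    simp only [h2]
    rw [integral_finsetSum]
    · apply Finset.sum_congr rfl
      intro n _
      rw [integral_const_mul]
      rfl
    · intro n _
      apply Integrable.const_mul
      exact FT_int h _ (ec_cont.comp (dt_cont _)).measurable 1 fun v => (ec_norm _).le
  have h3 : FT (cut i H) y = ∫ v, H v * (ec (dt y v) * j1 (v i)) := by
    unfold FT cut
    congr 1
    ext v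
    ring
  unfold HasSum
  simp only [SummationFilter.unconditional_filter]
  rw [tendsto_iff_edist_tendsto_0]
  -- the error
  have h4 : ∀ s : Finset ℤ, edist (∑ n ∈ s, cc n * FT H (y + uv i ((n : ℝ) / 4)))
      (FT (cut i H) y) ≤ (∫⁻ v, ‖H v‖ₑ ^ 2) ^ (1 / 2 : ℝ) *
        (4 ^ (m - 1) * ∫⁻ x in Icc (-2 : ℝ) 2, ‖j1 x - Ds s x‖ₑ ^ 2) ^ (1 / 2 : ℝ) := by
    intro s
    rw [h1, h3, edist_eq_enorm_sub, ← integral_sub]
    · have h5 : ∀ v, H v * (ec (dt y v) * Ds s (v i)) - H v * (ec (dt y v) * j1 (v i)) =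
          H v * (ec (dt y v) * (Ds s (v i) - j1 (v i))) := by
        intro v
        ring
      simp only [h5]
      refine (enorm_integral_le_lintegral_enorm _).trans ?_
      have h6 : ∫⁻ v, ‖H v * (ec (dt y v) * (Ds s (v i) - j1 (v i)))‖ₑ =
          ∫⁻ v in BA 2 m, ‖H v‖ₑ * ‖j1 (v i) - Ds s (v i)‖ₑ := by
        rw [← lintegral_indicator measurableSet_Icc]
        congr 1
        ext v
        by_cases hv : v ∈ BA 2 m
        · rw [indicator_of_mem hv, enorm_mul, enorm_mul, ec_enorm, one_mul, ← enorm_neg (Ds s (v i) -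
            j1 (v i)), neg_sub]
        · rw [indicator_of_notMem hv, h.supp v hv, zero_mul, enorm_zero]
      rw [h6]
      have hm1 : Measurable (fun v : Fin m → ℝ => ‖j1 (v i) - Ds s (v i)‖ₑ) :=
        ((j1_meas.comp (measurable_pi_apply i)).sub
          ((Ds_cont s).measurable.comp (measurable_pi_apply i))).enorm
      have h7 := ENNReal.lintegral_mul_le_Lp_mul_Lq (volume.restrict (BA 2 m))
        Real.HolderConjugate.two_two (f := fun v => ‖H v‖ₑ)
        (g := fun v => ‖j1 (v i) - Ds s (v i)‖ₑ) h.meas.enorm.aemeasurable hm1.aemeasurable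
      simp only [Pi.mul_apply, ENNReal.rpow_ofNat] at h7
      refine h7.trans ?_
      rw [lint_coord i (fun x => ‖j1 x - Ds s x‖ₑ ^ 2)
        ((j1_meas.sub (Ds_cont s).measurable).enorm.pow_const 2)]
      gcongr
      exact Measure.restrict_le_self
    · apply FT_int h _ _ (∑ n ∈ s, ‖cc n‖)
      · intro v
        rw [norm_mul, ec_norm, one_mul]
        unfold Ds
        refine (norm_sum_le _ _).trans (Finset.sum_le_sum fun n _ => ?_)
        rw [norm_mul, ec_norm, mul_one]
      · exact (ec_cont.comp (dt_cont _)).measurable.mul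
          ((Ds_cont s).measurable.comp (measurable_pi_apply i))
    · apply FT_int h _ _ 1
      · intro v
        rw [norm_mul, ec_norm, one_mul]
        exact j1_norm _
      · exact (ec_cont.comp (dt_cont _)).measurable.mul (j1_meas.comp (measurable_pi_apply i))
  have h5 : Tendsto (fun s : Finset ℤ => (∫⁻ v, ‖H v‖ₑ ^ 2) ^ (1 / 2 : ℝ) *
        (4 ^ (m - 1) * ∫⁻ x in Icc (-2 : ℝ) 2, ‖j1 x - Ds s x‖ₑ ^ 2) ^ (1 / 2 : ℝ)) atTop (𝓝 0) := by
    have h6 := ENNReal.Tendsto.const_mul (a := (4 : ℝ≥0∞) ^ (m - 1)) Ds_tendsto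
      (Or.inr (ENNReal.pow_ne_top (by norm_num)))
    rw [mul_zero] at h6
    have h7 := (ENNReal.continuous_rpow_const (y := (1 / 2 : ℝ))).tendsto 0
    rw [ENNReal.zero_rpow_of_pos (by norm_num)] at h7
    have h8 := ENNReal.Tendsto.const_mul (a := (∫⁻ v, ‖H v‖ₑ ^ 2) ^ (1 / 2 : ℝ)) (h7.comp h6)
      (Or.inr (ENNReal.rpow_ne_top_of_nonneg (by norm_num) h.sq))
    rw [mul_zero] at h8
    exact h8
  exact tendsto_of_tendsto_of_tendsto_of_le_of_le tendsto_const_nhds h5 (fun _ => zero_le) h4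

end Pool.Agent.Y183.LS
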