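import Pool.Agent.Y183.LS.H
set_option autoImplicit false

/-! The theorem of M. Riesz for functions supported in a cube, continued. -/

namespace Pool.Agent.Y183.LS

open MeasureTheory Set Complex Filter Topology
open scoped ENNReal NNReal
open Pool.Agent.Helper576.LpMult (MB MB_hk hk)

variable {m : ℕ}

/-- the pointwise estimate -/
lemma riesz_pt (q : ℝ) (hq : 1 < q) (C : ℝ) (hC : 0 ≤ C) (hMB : MB q C cc)
    {H : (Fin m → ℝ) → ℂ} (h : Good H) (i : Fin m) (y : Fin m → ℝ) :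
    ∑' k : ℤ, ‖FT (cut i H) (y + uv i ((k : ℝ) / 4))‖ₑ ^ q ≤
      ENNReal.ofReal (C ^ q) * ∑' k : ℤ, ‖FT H (y + uv i ((k : ℝ) / 4))‖ₑ ^ q := by
  have hq0 : 0 ≤ q := by linarith
  rw [ENNReal.tsum_eq_iSup_sum]
  apply iSup_le
  intro t
  -- the limit
  have h1 : ∀ k : ℤ, Tendsto (fun s : Finset ℤ => ∑ l ∈ s, cc (k - l) *
      FT H (y + uv i ((l : ℝ) / 4))) atTop (𝓝 (FT (cut i H) (y + uv i ((k : ℝ) / 4)))) := by
    intro k
    have h2 := sampling h i (y + uv i ((k : ℝ) / 4))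
    have h3 : HasSum (fun l : ℤ => cc (k - l) * FT H (y + uv i ((l : ℝ) / 4)))
        (FT (cut i H) (y + uv i ((k : ℝ) / 4))) := by
      rw [← (Equiv.addLeft k).hasSum_iff]
      refine h2.congr_fun fun n => ?_
      simp only [Function.comp_apply, Equiv.coe_addLeft]
      rw [show k - (k + n) = -n by ring, cc_neg]
      congr 2
      rw [add_assoc]
      congr 1
      unfold uv
      rw [← Pi.single_add]
      congr 1
      push_cast
      ring
    have h4 := h3
    unfold HasSum at h4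
    simpa only [SummationFilter.unconditional_filter] using h4
  have h2 : Tendsto (fun s : Finset ℤ => ∑ k ∈ t, ‖∑ l ∈ s, cc (k - l) *
      FT H (y + uv i ((l : ℝ) / 4))‖ₑ ^ q) atTop
      (𝓝 (∑ k ∈ t, ‖FT (cut i H) (y + uv i ((k : ℝ) / 4))‖ₑ ^ q)) := by
    apply tendsto_finsetSum
    intro k _
    have h3 := (continuous_enorm.tendsto _).comp (h1 k)
    exact ((ENNReal.continuous_rpow_const (y := q)).tendsto _).comp h3
  refine le_of_tendsto' h2 fun s => ?_
  have h3 := hMB s t (fun l => FT H (y + uv i ((l : ℝ) / 4)))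
  have e1 : ∀ z : ℂ, ‖z‖ₑ ^ q = ENNReal.ofReal (‖z‖ ^ q) := by
    intro z
    rw [← ofReal_norm, ENNReal.ofReal_rpow_of_nonneg (norm_nonneg _) hq0]
  calc ∑ k ∈ t, ‖∑ l ∈ s, cc (k - l) * FT H (y + uv i ((l : ℝ) / 4))‖ₑ ^ q =
      ENNReal.ofReal (∑ k ∈ t, ‖∑ l ∈ s, cc (k - l) * FT H (y + uv i ((l : ℝ) / 4))‖ ^ q) := by
        rw [ENNReal.ofReal_sum_of_nonneg fun k _ => by positivity]
        simp only [e1]
    _ ≤ ENNReal.ofReal (C ^ q * ∑ l ∈ s, ‖FT H (y + uv i ((l : ℝ) / 4))‖ ^ q) :=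
        ENNReal.ofReal_le_ofReal h3
    _ = ENNReal.ofReal (C ^ q) * ∑ l ∈ s, ‖FT H (y + uv i ((l : ℝ) / 4))‖ₑ ^ q := by
        rw [ENNReal.ofReal_mul (by positivity), ENNReal.ofReal_sum_of_nonneg fun k _ => by positivity]
        simp only [e1]
    _ ≤ _ := by
        gcongr
        exact ENNReal.sum_le_tsum s

/-- decomposition into cells -/
lemma lint_cells (i : Fin m) (g : (Fin m → ℝ) → ℝ≥0∞) (hg : Measurable g) :
    ∫⁻ y, g y = ∫⁻ y in {y : Fin m → ℝ | 0 ≤ y i ∧ y i < 1 / 4},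
      ∑' k : ℤ, g (y + uv i ((k : ℝ) / 4)) := by
  set D : ℤ → Set (Fin m → ℝ) := fun k => {y | (k : ℝ) / 4 ≤ y i ∧ y i < (k : ℝ) / 4 + 1 / 4} with hD
  have hDm : ∀ k, MeasurableSet (D k) := fun k =>
    (measurableSet_le measurable_const (measurable_pi_apply i)).inter
      (measurableSet_lt (measurable_pi_apply i) measurable_const)
  have hD0 : D 0 = {y : Fin m → ℝ | 0 ≤ y i ∧ y i < 1 / 4} := by
    simp only [hD]
    norm_num
  have hfl : ∀ (k : ℤ) (y : Fin m → ℝ), y ∈ D k ↔ k = ⌊4 * y i⌋ := by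
    intro k y
    simp only [hD, mem_ofPred_eq]
    rw [eq_comm, Int.floor_eq_iff]
    constructor
    · rintro ⟨h1, h2⟩
      constructor <;> linarith
    · rintro ⟨h1, h2⟩
      constructor <;> linarith
  have hU : (⋃ k, D k) = univ := by
    ext y
    simp only [mem_iUnion, mem_univ, iff_true]
    exact ⟨_, (hfl _ y).mpr rfl⟩
  have hdisj : Pairwise (Function.onFun Disjoint D) := by
    intro a b hab
    rw [Function.onFun, Set.disjoint_left]
    intro y h1 h2
    exact hab (((hfl a y).mp h1).trans ((hfl b y).mp h2).symm)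
  rw [← hD0, ← setLIntegral_univ, ← hU, lintegral_iUnion hDm hdisj, lintegral_tsum]
  · congr 1
    ext k
    rw [← lintegral_indicator (hDm k), ← lintegral_indicator (hDm 0),
      ← lintegral_add_right_eq_self _ (uv i ((k : ℝ) / 4))]
    congr 1
    ext y
    have h1 : y + uv i ((k : ℝ) / 4) ∈ D k ↔ y ∈ D 0 := by
      simp only [hD, mem_ofPred_eq, Pi.add_apply, uv, Pi.single_eq_same, Int.cast_zero, zero_div,
        zero_add]
      constructor
      · rintro ⟨h1, h2⟩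
        constructor <;> linarith
      · rintro ⟨h1, h2⟩
        constructor <;> linarith
    by_cases hy : y ∈ D 0
    · rw [indicator_of_mem hy, indicator_of_mem (h1.mpr hy)]
    · rw [indicator_of_notMem hy, indicator_of_notMem (fun h => hy (h1.mp h))]
  · intro k
    exact (hg.comp (measurable_id.add_const _)).aemeasurable

/-- **the theorem of M. Riesz** -/
lemma riesz (q : ℝ) (hq : 1 < q) : ∃ C : ℝ≥0, ∀ (m : ℕ) (H : (Fin m → ℝ) → ℂ), Good H →
    ∀ i : Fin m, ∫⁻ y, ‖FT (cut i H) y‖ₑ ^ q ≤ C * ∫⁻ y, ‖FT H y‖ₑ ^ q := by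
  obtain ⟨C, hC, hMB⟩ := MB_cc q hq
  refine ⟨(C ^ q).toNNReal, ?_⟩
  intro m H hH i
  have h1 : Measurable fun y => ‖FT (cut i H) y‖ₑ ^ q := (FT_meas (hH.cut i).meas).enorm.pow_const q
  have h2 : Measurable fun y => ‖FT H y‖ₑ ^ q := (FT_meas hH.meas).enorm.pow_const q
  rw [lint_cells i _ h1, lint_cells i _ h2]
  have e : (((C ^ q).toNNReal : ℝ≥0) : ℝ≥0∞) = ENNReal.ofReal (C ^ q) := rfl
  rw [e, ← lintegral_const_mul' _ _ ENNReal.ofReal_ne_top]
  apply lintegral_mono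
  intro y
  exact riesz_pt q hq C hC hMB hH i y

/-- cutting in several coordinates -/
noncomputable def cuts (H : (Fin m → ℝ) → ℂ) (s : Finset (Fin m)) (v : Fin m → ℝ) : ℂ :=
  H v * ∏ i ∈ s, j1 (v i)

lemma cuts_insert (H : (Fin m → ℝ) → ℂ) (s : Finset (Fin m)) (i : Fin m) (hi : i ∉ s) :
    cuts H (insert i s) = cut i (cuts H s) := by
  ext v
  unfold cuts cut
  rw [Finset.prod_insert hi]
  ring

/-- **the theorem of M. Riesz** for the cube -/
lemma riesz_cube (q : ℝ) (hq : 1 < q) (m : ℕ) : ∃ C : ℝ≥0, ∀ (H : (Fin m → ℝ) → ℂ), Good H →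
    ∫⁻ y, ‖∫ v in BA 1 m, H v * ec (dt y v)‖ₑ ^ q ≤ C * ∫⁻ y, ‖FT H y‖ₑ ^ q := by
  obtain ⟨C, hC⟩ := riesz q hq
  refine ⟨C ^ m, ?_⟩
  intro H hH
  have key : ∀ s : Finset (Fin m), Good (cuts H s) ∧
      ∫⁻ y, ‖FT (cuts H s) y‖ₑ ^ q ≤ (C : ℝ≥0∞) ^ s.card * ∫⁻ y, ‖FT H y‖ₑ ^ q := by
    intro s
    induction s using Finset.induction_on with
    | empty =>
      have h0 : cuts H ∅ = H := by
        ext v
        simp [cuts]
      rw [h0]
      refine ⟨hH, ?_⟩
      simp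
    | insert i s hi ih =>
      rw [cuts_insert H s i hi]
      refine ⟨ih.1.cut i, ?_⟩
      refine (hC m _ ih.1 i).trans ?_
      rw [Finset.card_insert_of_notMem hi, pow_succ]
      calc (C : ℝ≥0∞) * ∫⁻ y, ‖FT (cuts H s) y‖ₑ ^ q ≤
          C * (C ^ s.card * ∫⁻ y, ‖FT H y‖ₑ ^ q) := by
            gcongr
            exact ih.2
        _ = _ := by ring
  obtain ⟨-, h1⟩ := key Finset.univ
  rw [Finset.card_univ, Fintype.card_fin] at h1
  have h2 : ∀ y, FT (cuts H Finset.univ) y = ∫ v in BA 1 m, H v * ec (dt y v) := by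
    intro y
    unfold FT
    rw [← integral_indicator measurableSet_Icc]
    congr 1
    ext v
    unfold cuts
    by_cases hv : v ∈ BA 1 m
    · rw [indicator_of_mem hv]
      have h3 : ∏ i, j1 (v i) = 1 := by
        apply Finset.prod_eq_one
        intro i _
        unfold j1
        rw [indicator_of_mem (show v i ∈ Icc (-1 : ℝ) 1 from ⟨hv.1 i, hv.2 i⟩)]
      rw [h3, mul_one]
    · rw [indicator_of_notMem hv]
      have h3 : ∃ i, v i ∉ Icc (-1 : ℝ) 1 := by
        by_contra hc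
        push Not at hc
        exact hv ⟨fun i => (hc i).1, fun i => (hc i).2⟩
      obtain ⟨i, hi⟩ := h3
      rw [Finset.prod_eq_zero (Finset.mem_univ i), mul_zero, zero_mul]
      unfold j1
      rw [indicator_of_notMem hi]
  simp only [h2] at h1
  push_cast
  exact h1

end Pool.Agent.Y183.LS
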