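import Pool.Agent.Y183.LS.I
set_option autoImplicit false

/-! The estimate of finite sums on the cube, large time. -/

namespace Pool.Agent.Y183.LS

open MeasureTheory Set Complex Filter Topology
open scoped ENNReal NNReal

variable {m : ℕ}

lemma em_eq (y : Fin m → ℝ) (t : ℝ) (v : Fin m → ℝ) : em y t v = ec (dt y v) * ec (t * sq2 v) := by
  unfold em Pool.Agent.W771.MD.em
  simp only [qe_ec]
  rw [← ec_sum, ← ec_add]
  congr 1
  unfold dt sq2
  rw [Finset.mul_sum, ← Finset.sum_add_distrib]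
  apply Finset.sum_congr rfl
  intro i _
  ring

lemma em_cont (y : Fin m → ℝ) (t : ℝ) : Continuous (em y t) := by
  unfold em Pool.Agent.W771.MD.em Pool.Agent.W771.MD.qe
  fun_prop

lemma em_nrm (y : Fin m → ℝ) (t : ℝ) (v : Fin m → ℝ) : ‖em y t v‖ = 1 :=
  Pool.Agent.W771.MD.em_norm _ _ _

lemma em_enrm (y : Fin m → ℝ) (t : ℝ) (v : Fin m → ℝ) : ‖em y t v‖ₑ = 1 :=
  Pool.Agent.W771.MD.em_enorm _ _ _

lemma Wm_meas : Measurable (Wm (m := m)) :=
  Finset.measurable_fun_prod _ fun i _ => w1_meas.comp (measurable_pi_apply i)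

lemma Wm_norm (v : Fin m → ℝ) : ‖Wm v‖ ≤ 1 := by
  unfold Wm
  rw [norm_prod]
  exact Finset.prod_le_one (fun i _ => norm_nonneg _) (fun i _ => w1_norm _)

lemma Wm_one (v : Fin m → ℝ) (hv : v ∈ BA 1 m) : Wm v = 1 := by
  unfold Wm
  exact Finset.prod_eq_one fun i _ => w1_one _ ⟨hv.1 i, hv.2 i⟩

lemma Wm_zero (v : Fin m → ℝ) (hv : v ∉ BA 2 m) : Wm v = 0 := by
  have h1 : ∃ i, v i ∉ Icc (-2 : ℝ) 2 := by
    by_contra hc
    push Not at hc
    exact hv ⟨fun i => (hc i).1, fun i => (hc i).2⟩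
  obtain ⟨i, hi⟩ := h1
  unfold Wm
  rw [Finset.prod_eq_zero (Finset.mem_univ i) (w1_zero _ hi)]

lemma tri_norm {ι : Type*} (F : Finset ι) (κ : ι → Fin m → ℝ) (c : ι → ℂ) (v : Fin m → ℝ) :
    ‖tri F κ c v‖ ≤ ∑ k ∈ F, ‖c k‖ := by
  unfold tri
  refine (norm_sum_le _ _).trans (Finset.sum_le_sum fun n _ => ?_)
  rw [norm_mul, ec_norm, mul_one]

/-- the function to which the theorem of M. Riesz is applied -/
noncomputable def Hf {ι : Type*} (F : Finset ι) (κ : ι → Fin m → ℝ) (c : ι → ℂ) (t : ℝ)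
    (v : Fin m → ℝ) : ℂ := Wm v * (tri F κ c v * ec (t * sq2 v))

lemma sq2_cont : Continuous (sq2 (m := m)) := by
  unfold sq2
  fun_prop

lemma Hf_good {ι : Type*} (F : Finset ι) (κ : ι → Fin m → ℝ) (c : ι → ℂ) (t : ℝ) :
    Good (Hf F κ c t) := by
  have hm : Measurable (Hf F κ c t) :=
    Wm_meas.mul ((tri_cont _ _ _).mul (ec_cont.comp (continuous_const.mul sq2_cont))).measurable
  have hs : ∀ v, v ∉ BA 2 m → Hf F κ c t v = 0 := by
    intro v hv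
    unfold Hf
    rw [Wm_zero v hv, zero_mul]
  refine ⟨hm, ?_, hs⟩
  have h1 : ∀ v, ‖Hf F κ c t v‖ₑ ^ 2 ≤ (BA 2 m).indicator
      (fun _ => ENNReal.ofReal (∑ k ∈ F, ‖c k‖) ^ 2) v := by
    intro v
    by_cases hv : v ∈ BA 2 m
    · rw [indicator_of_mem hv]
      gcongr
      rw [← ofReal_norm]
      apply ENNReal.ofReal_le_ofReal
      unfold Hf
      rw [norm_mul, norm_mul, ec_norm, mul_one]
      calc ‖Wm v‖ * ‖tri F κ c v‖ ≤ 1 * ∑ k ∈ F, ‖c k‖ := by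
            gcongr
            · exact Wm_norm v
            · exact tri_norm F κ c v
        _ = _ := one_mul _
    · rw [indicator_of_notMem hv, hs v hv]
      simp
  refine ne_top_of_le_ne_top ?_ (lintegral_mono h1)
  rw [lintegral_indicator measurableSet_Icc, setLIntegral_const]
  exact ENNReal.mul_ne_top (ENNReal.pow_ne_top ENNReal.ofReal_ne_top) (BA_fin 2).ne

lemma FT_Hf {ι : Type*} (F : Finset ι) (κ : ι → Fin m → ℝ) (c : ι → ℂ) (t : ℝ) (y : Fin m → ℝ) :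
    FT (Hf F κ c t) y = ∫ v, Wm v * (tri F κ c v * em y t v) := by
  unfold FT Hf
  congr 1
  ext v
  rw [em_eq]
  ring

lemma cube_Hf {ι : Type*} (F : Finset ι) (κ : ι → Fin m → ℝ) (c : ι → ℂ) (t : ℝ)
    (y : Fin m → ℝ) : ∫ v in BA 1 m, Hf F κ c t v * ec (dt y v) =
      ∫ v in BA 1 m, tri F κ c v * em y t v := by
  apply setIntegral_congr_fun measurableSet_Icc
  intro v hv
  simp only
  unfold Hf
  rw [Wm_one v hv, em_eq]
  ring

/-- **finite sums**, large time -/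
lemma fin_sum (m : ℕ) (q : ℝ) (hq : 2 ≤ q) : ∃ C : ℝ≥0, ∀ (ι : Type) (F : Finset ι)
    (κ : ι → Fin m → ℝ) (KK : ℝ≥0∞),
    (∀ c : ι → ℂ, ∫⁻ z in QQ m, ‖tri F κ c z‖ₑ ^ q ≤ KK * (∑ k ∈ F, ‖c k‖ₑ ^ 2) ^ (q / 2)) →
    ∀ (c : ι → ℂ) (t : ℝ), 1 ≤ |t| →
    ∫⁻ y, ‖∫ v in BA 1 m, tri F κ c v * em y t v‖ₑ ^ q ≤
      C * ENNReal.ofReal (|t| ^ (-(q / 2 - 1))) ^ m * (KK * (∑ k ∈ F, ‖c k‖ₑ ^ 2) ^ (q / 2)) := by
  obtain ⟨C1, hC1⟩ := riesz_cube q (by linarith) m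
  have hcE := cE_ne_top q (by linarith)
  refine ⟨C1 * (2 * (cE q).toNNReal) ^ m, ?_⟩
  intro ι F κ KK hK c t ht
  have htp : 0 < |t| := by linarith
  have ht0 : t ≠ 0 := abs_pos.mp htp
  have h1 := hC1 _ (Hf_good F κ c t)
  simp only [cube_Hf, FT_Hf] at h1
  have hm : Measurable (fun y => ‖∫ v, Wm v * (tri F κ c v * em y t v)‖ₑ ^ q) := by
    have := FT_meas (Hf_good F κ c t).meas
    simp only [← FT_Hf]
    exact this.enorm.pow_const q
  have h2 := lint_smul (-(2 * t)) (by simpa using ht0) _ hm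
  have h3 : ∀ z : Fin m → ℝ, (-(2 * t)) • z = fun i => -(2 * t * z i) := by
    intro z
    ext i
    rw [Pi.smul_apply, smul_eq_mul]
    ring
  simp only [h3] at h2
  have h4 := win_z F κ q hq KK hK c t ht0
  have h5 := eta_lint q t (by linarith) ht
  rw [← h2] at h1
  refine h1.trans ?_
  have habs : |-(2 * t)| = 2 * |t| := by
    rw [abs_neg, abs_mul, abs_two]
  rw [habs]
  have e1 : ENNReal.ofReal ((2 * |t|) ^ m) * (ENNReal.ofReal (|t| ^ (-(q / 2))) * cE q) ^ m =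
      (2 * cE q) ^ m * ENNReal.ofReal (|t| ^ (-(q / 2 - 1))) ^ m := by
    rw [ENNReal.ofReal_pow (by positivity), ← mul_pow, ← mul_pow]
    congr 1
    rw [ENNReal.ofReal_mul (by norm_num)]
    have e2 : ENNReal.ofReal |t| * ENNReal.ofReal (|t| ^ (-(q / 2))) =
        ENNReal.ofReal (|t| ^ (-(q / 2 - 1))) := by
      rw [← ENNReal.ofReal_mul (by positivity)]
      congr 1
      nth_rewrite 1 [← Real.rpow_one |t|]
      rw [← Real.rpow_add htp]
      congr 1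
      ring
    rw [← e2]
    simp only [ENNReal.ofReal_ofNat]
    ring
  push_cast
  rw [ENNReal.coe_toNNReal hcE]
  calc (C1 : ℝ≥0∞) * (ENNReal.ofReal ((2 * |t|) ^ m) * ∫⁻ z : Fin m → ℝ,
        ‖∫ v, Wm v * (tri F κ c v * em (fun i => -(2 * t * z i)) t v)‖ₑ ^ q) ≤
      C1 * (ENNReal.ofReal ((2 * |t|) ^ m) * (KK * (∑ k ∈ F, ‖c k‖ₑ ^ 2) ^ (q / 2) *
        (ENNReal.ofReal (|t| ^ (-(q / 2))) * cE q) ^ m)) := by
        gcongr
        exact h4.trans (by gcongr)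
    _ = C1 * (ENNReal.ofReal ((2 * |t|) ^ m) * (ENNReal.ofReal (|t| ^ (-(q / 2))) * cE q) ^ m) *
        (KK * (∑ k ∈ F, ‖c k‖ₑ ^ 2) ^ (q / 2)) := by ring
    _ = _ := by
        rw [e1]
        ring

end Pool.Agent.Y183.LS
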