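import Pool.Agent.Y183.LS.J
set_option autoImplicit false

/-! The estimate for fixed time and general functions with spectrum in a set. -/

namespace Pool.Agent.Y183.LS

open MeasureTheory Set Complex Filter Topology
open scoped ENNReal NNReal

variable {m : ℕ}

/-- the condition on the spectrum -/
def LQ (q : ℝ) (K : ℝ≥0) (L : Set (Fin m → ℤ)) : Prop :=
  ∀ F : Finset (Fin m → ℤ), (∀ k ∈ F, k ∈ L) → ∀ c : (Fin m → ℤ) → ℂ,
    ∫⁻ v in BA 1 m, ‖tri F (izA 1) c v‖ₑ ^ q ≤ (K : ℝ≥0∞) ^ q * (∑ k ∈ F, ‖c k‖ₑ ^ 2) ^ (q / 2)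

lemma QQ_sub : QQ m ⊆ BA 1 m := by
  intro v hv
  exact ⟨fun i => by have := hv.1 i; simp only at this ⊢; linarith,
    fun i => by have := hv.2 i; simp only at this ⊢; linarith⟩

lemma BA1_vol : volume (BA 1 m) = 2 ^ m := by
  rw [Real.volume_Icc_pi]
  norm_num

/-- Cauchy-Schwarz on the cube -/
lemma cs_cube (g : (Fin m → ℝ) → ℂ) (hg : Measurable g) :
    ∫⁻ v in BA 1 m, ‖g v‖ₑ ≤ (∫⁻ v in BA 1 m, ‖g v‖ₑ ^ 2) ^ (1 / 2 : ℝ) * (2 ^ m) ^ (1 / 2 : ℝ) := by
  have h := ENNReal.lintegral_mul_le_Lp_mul_Lq (volume.restrict (BA 1 m))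
    Real.HolderConjugate.two_two (f := fun v => ‖g v‖ₑ) (g := fun _ => (1 : ℝ≥0∞))
    hg.enorm.aemeasurable aemeasurable_const
  simp only [ENNReal.rpow_ofNat, Pi.mul_apply, one_pow, mul_one, lintegral_const, one_mul,
    Measure.restrict_apply_univ, BA1_vol] at h
  exact h

lemma sup_cube (G : (Fin m → ℝ) → ℂ) (hG : Measurable G) (y : Fin m → ℝ) (t : ℝ) :
    ‖∫ v in BA 1 m, G v * em y t v‖ₑ ≤
      (∫⁻ v in BA 1 m, ‖G v‖ₑ ^ 2) ^ (1 / 2 : ℝ) * (2 ^ m) ^ (1 / 2 : ℝ) := by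
  refine (enorm_integral_le_lintegral_enorm _).trans ?_
  simp only [enorm_mul, em_enrm, mul_one]
  exact cs_cube G hG

lemma G_int (G : (Fin m → ℝ) → ℂ) (hG : Measurable G) (h2 : ∫⁻ v in BA 1 m, ‖G v‖ₑ ^ 2 ≠ ∞)
    (y : Fin m → ℝ) (t : ℝ) : IntegrableOn (fun v => G v * em y t v) (BA 1 m) := by
  refine ⟨(hG.mul (em_cont y t).measurable).aestronglyMeasurable, ?_⟩
  unfold HasFiniteIntegral
  simp only [enorm_mul, em_enrm, mul_one]
  refine lt_of_le_of_lt (cs_cube G hG) ?_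
  apply ENNReal.mul_lt_top
  · exact ENNReal.rpow_lt_top_of_nonneg (by norm_num) h2
  · exact ENNReal.rpow_lt_top_of_nonneg (by norm_num) (ENNReal.pow_ne_top (by norm_num))

/-- small time -/
lemma small (q : ℝ) (hq : 2 ≤ q) (G : (Fin m → ℝ) → ℂ) (hG : Measurable G)
    (h2 : ∫⁻ v in BA 1 m, ‖G v‖ₑ ^ 2 ≠ ∞) (t : ℝ) :
    ∫⁻ y, ‖∫ v in BA 1 m, G v * em y t v‖ₑ ^ q ≤
      ((2 : ℝ≥0∞) ^ m) ^ ((q - 2) / 2) * (∫⁻ v in BA 1 m, ‖G v‖ₑ ^ 2) ^ (q / 2) := by
  set N : ℝ≥0∞ := ∫⁻ v in BA 1 m, ‖G v‖ₑ ^ 2 with hN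
  have hq0 : 0 ≤ (q - 2) / 2 := by linarith
  have hsup := sup_cube G hG
  have hmem : MemLp G 2 (volume.restrict (BA 1 m)) := by
    refine ⟨hG.aestronglyMeasurable, ?_⟩
    rw [eLpNorm_lt_top_iff_lintegral_rpow_enorm_lt_top (by norm_num) (by norm_num)]
    simp only [ENNReal.toReal_ofNat, ENNReal.rpow_ofNat]
    exact lt_top_iff_ne_top.mpr h2
  have hfin : IsFiniteMeasure (volume.restrict (BA 1 m)) := ⟨by
    rw [Measure.restrict_apply_univ]
    exact BA_fin 1⟩
  have k1 : Integrable ((BA 1 m).indicator G) :=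
    (integrable_indicator_iff measurableSet_Icc).mpr (hmem.integrable (by norm_num))
  have k2 : MemLp ((BA 1 m).indicator G) 2 :=
    (memLp_indicator_iff_restrict measurableSet_Icc).mpr hmem
  have h3 := Pool.Agent.W771.MD.planchM _ k1 k2 t
  have e1 : ∀ y : Fin m → ℝ, ∫ v, (BA 1 m).indicator G v * em y t v =
      ∫ v in BA 1 m, G v * em y t v := by
    intro y
    rw [← integral_indicator measurableSet_Icc]
    congr 1
    ext v
    by_cases h : v ∈ BA 1 m
    · rw [indicator_of_mem h, indicator_of_mem h]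
    · rw [indicator_of_notMem h, indicator_of_notMem h, zero_mul]
  have e2 : ∫⁻ v, ‖(BA 1 m).indicator G v‖ₑ ^ 2 = N := by
    rw [hN, ← lintegral_indicator measurableSet_Icc]
    congr 1
    ext v
    by_cases h : v ∈ BA 1 m
    · rw [indicator_of_mem h, indicator_of_mem h]
    · rw [indicator_of_notMem h, indicator_of_notMem h]
      simp
  have h4 : ∫⁻ y : Fin m → ℝ, ‖∫ v in BA 1 m, G v * em y t v‖ₑ ^ 2 = N := by
    rw [← e2, ← h3]
    congr 1
    ext y
    rw [← e1]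
  have h5 : ∀ y : Fin m → ℝ, ‖∫ v in BA 1 m, G v * em y t v‖ₑ ^ q ≤
      (N * 2 ^ m) ^ ((q - 2) / 2) * ‖∫ v in BA 1 m, G v * em y t v‖ₑ ^ 2 := by
    intro y
    set z := ‖∫ v in BA 1 m, G v * em y t v‖ₑ with hz
    have h6 : z ^ q = (z ^ 2) ^ ((q - 2) / 2) * z ^ 2 := by
      rw [← ENNReal.rpow_natCast, ← ENNReal.rpow_mul, ← ENNReal.rpow_add_of_nonneg _ _
        (by push_cast; linarith) (by positivity)]
      congr 1
      push_cast
      ring
    rw [h6]
    gcongr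
    calc z ^ 2 ≤ (N ^ (1 / 2 : ℝ) * (2 ^ m) ^ (1 / 2 : ℝ)) ^ 2 := by
          gcongr
          exact hsup y t
      _ = N * 2 ^ m := by
          rw [mul_pow, ← ENNReal.rpow_natCast, ← ENNReal.rpow_natCast, ← ENNReal.rpow_mul,
            ← ENNReal.rpow_mul]
          norm_num
  have hct : (N * 2 ^ m) ^ ((q - 2) / 2) ≠ ∞ := by
    apply ENNReal.rpow_ne_top_of_nonneg hq0
    exact ENNReal.mul_ne_top h2 (ENNReal.pow_ne_top (by norm_num))
  refine (lintegral_mono h5).trans ?_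
  rw [lintegral_const_mul' _ _ hct, h4, ENNReal.mul_rpow_of_nonneg _ _ hq0]
  have e : q / 2 = (q - 2) / 2 + 1 := by ring
  rw [e, ENNReal.rpow_add_of_nonneg _ _ hq0 zero_le_one, ENNReal.rpow_one]
  exact le_of_eq (by ring)

lemma cub_meas (g : (Fin m → ℝ) → ℂ) (hg : Measurable g) (t : ℝ) :
    Measurable (fun y : Fin m → ℝ => ∫ v in BA 1 m, g v * em y t v) := by
  have h1 : ∀ y : Fin m → ℝ, ∫ v in BA 1 m, g v * em y t v =
      FT (fun v => (BA 1 m).indicator g v * ec (t * sq2 v)) y := by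
    intro y
    unfold FT
    rw [← integral_indicator measurableSet_Icc]
    congr 1
    ext v
    simp only
    by_cases hv : v ∈ BA 1 m
    · rw [indicator_of_mem hv, indicator_of_mem hv, em_eq]
      ring
    · rw [indicator_of_notMem hv, indicator_of_notMem hv]
      ring
  simp only [h1]
  exact FT_meas ((hg.indicator measurableSet_Icc).mul
    (ec_cont.comp (continuous_const.mul sq2_cont)).measurable)

/-- the coefficients vanish off the spectrum -/
lemma tri_filter (L : Set (Fin m → ℤ)) [DecidablePred (· ∈ L)] (F : Finset (Fin m → ℤ))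
    (c : (Fin m → ℤ) → ℂ) (hc : ∀ k, k ∉ L → c k = 0) (v : Fin m → ℝ) :
    tri F (izA 1) c v = tri (F.filter (· ∈ L)) (izA 1) c v := by
  unfold tri
  rw [Finset.sum_filter]
  apply Finset.sum_congr rfl
  intro k _
  split_ifs with h
  · rfl
  · rw [hc k h, zero_mul]

/-- **fixed time** -/
lemma slice (m : ℕ) (q : ℝ) (hq : 2 ≤ q) : ∃ C : ℝ≥0, ∀ (L : Set (Fin m → ℤ)) (K : ℝ≥0),
    LQ q K L → ∀ G : (Fin m → ℝ) → ℂ, Measurable G → ∫⁻ v in BA 1 m, ‖G v‖ₑ ^ 2 ≠ ∞ →
    (∀ k, k ∉ L → cfA 1 G k = 0) → ∀ t : ℝ,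
    ∫⁻ y, ‖∫ v in BA 1 m, G v * em y t v‖ₑ ^ q ≤
      C * (K : ℝ≥0∞) ^ q * ENNReal.ofReal ((1 + ‖t‖) ^ (-(m * (q / 2 - 1)))) *
        (∫⁻ v in BA 1 m, ‖G v‖ₑ ^ 2) ^ (q / 2) := by
  classical
  obtain ⟨C1, hC1⟩ := fin_sum m q hq
  have hq0 : 0 < q := by linarith
  set a : ℝ := m * (q / 2 - 1) with ha
  have ha0 : 0 ≤ a := by
    rw [ha]
    apply mul_nonneg (Nat.cast_nonneg _) (by linarith)
  set C2 : ℝ≥0 := ((2 : ℝ≥0) ^ m) ^ ((q - 2) / 2) with hC2
  set D : ℝ≥0 := ((2 : ℝ) ^ a).toNNReal with hD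
  have hD' : (D : ℝ≥0∞) = ENNReal.ofReal ((2 : ℝ) ^ a) := rfl
  refine ⟨(C1 + C2) * D, ?_⟩
  intro L K hL G hG h2 hs t
  set N : ℝ≥0∞ := ∫⁻ v in BA 1 m, ‖G v‖ₑ ^ 2 with hN
  obtain ⟨hlim, hbes⟩ := fourier_cube 1 one_pos G hG h2
  have hbes' : ∀ F : Finset (Fin m → ℤ), ∑ k ∈ F, ‖cfA 1 G k‖ₑ ^ 2 ≤ N := by
    intro F
    refine le_trans ?_ (hbes F)
    apply le_mul_of_one_le_left' _
    rw [← ENNReal.ofReal_one]
    apply ENNReal.ofReal_le_ofReal
    exact one_le_pow₀ (by norm_num)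
  have hb0 : (0 : ℝ) < 1 + ‖t‖ := by positivity
  rcases le_total |t| 1 with ht | ht
  · -- small time
    have hw : 1 ≤ (D : ℝ≥0∞) * ENNReal.ofReal ((1 + ‖t‖) ^ (-a)) := by
      rw [hD', ← ENNReal.ofReal_mul (by positivity), ← ENNReal.ofReal_one]
      apply ENNReal.ofReal_le_ofReal
      rw [Real.norm_eq_abs, Real.rpow_neg (by positivity), ← div_eq_mul_inv, le_div_iff₀
        (by positivity), one_mul]
      exact Real.rpow_le_rpow (by positivity) (by linarith) ha0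
    have h3 := small q hq G hG h2 t
    rw [← hN] at h3
    have hcase : N = 0 ∨ 1 ≤ (K : ℝ≥0∞) ^ q := by
      by_cases hne : ∃ k, k ∈ L
      · right
        obtain ⟨k, hk⟩ := hne
        have h4 := hL {k} (by
          intro j hj
          rw [Finset.mem_singleton] at hj
          rw [hj]
          exact hk) (fun _ => 1)
        unfold tri at h4
        simp only [Finset.sum_singleton, one_mul, ec_enorm, ENNReal.one_rpow, enorm_one, one_pow,
          mul_one] at h4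
        rw [lintegral_one, Measure.restrict_apply_univ, BA1_vol] at h4
        exact le_trans (one_le_pow₀ (by norm_num)) h4
      · left
        have h5 : ∀ F : Finset (Fin m → ℤ), ∫⁻ v in BA 1 m, ‖G v - tri F (izA 1) (cfA 1 G) v‖ₑ ^ 2 =
            N := by
          intro F
          have h6 : ∀ v, tri F (izA 1) (cfA 1 G) v = 0 := by
            intro v
            unfold tri
            apply Finset.sum_eq_zero
            intro k _
            rw [hs k (fun h => hne ⟨k, h⟩), zero_mul]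
          simp only [h6, sub_zero]
          rfl
        simp only [h5] at hlim
        exact tendsto_nhds_unique tendsto_const_nhds hlim
    rcases hcase with h0 | h1
    · rw [h0, ENNReal.zero_rpow_of_pos (by linarith), mul_zero] at h3 ⊢
      exact h3
    · refine h3.trans ?_
      push_cast
      have e2 : ((2 : ℝ≥0∞) ^ m) ^ ((q - 2) / 2) = (C2 : ℝ≥0∞) := by
        rw [hC2, ENNReal.coe_rpow_of_nonneg _ (by linarith)]
        push_cast
        rfl
      rw [e2]
      calc (C2 : ℝ≥0∞) * N ^ (q / 2) = C2 * 1 * 1 * N ^ (q / 2) := by ring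
        _ ≤ (C1 + C2) * (K : ℝ≥0∞) ^ q * (D * ENNReal.ofReal ((1 + ‖t‖) ^ (-a))) * N ^ (q / 2) := by
            gcongr
            exact le_add_self
        _ = _ := by ring
  · -- large time
    have htp : 0 < |t| := by linarith
    have hw : ENNReal.ofReal (|t| ^ (-(q / 2 - 1))) ^ m ≤
        (D : ℝ≥0∞) * ENNReal.ofReal ((1 + ‖t‖) ^ (-a)) := by
      rw [hD', ← ENNReal.ofReal_pow (by positivity), ← ENNReal.ofReal_mul (by positivity)]
      apply ENNReal.ofReal_le_ofReal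
      rw [← Real.rpow_natCast, ← Real.rpow_mul htp.le]
      have e3 : -(q / 2 - 1) * (m : ℝ) = -a := by
        rw [ha]
        ring
      rw [e3, Real.norm_eq_abs]
      calc |t| ^ (-a) = 2 ^ a * (2 * |t|) ^ (-a) := by
            rw [Real.mul_rpow (by norm_num) htp.le, ← mul_assoc, ← Real.rpow_add (by norm_num),
              add_neg_cancel, Real.rpow_zero, one_mul]
        _ ≤ 2 ^ a * (1 + |t|) ^ (-a) := by
            gcongr 2 ^ a * ?_
            exact Real.rpow_le_rpow_of_nonpos (by positivity) (by linarith) (by linarith)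
    -- a sequence of finite sets
    obtain ⟨Fs, hFs⟩ := Filter.exists_seq_tendsto (atTop : Filter (Finset (Fin m → ℤ)))
    have hlim2 := hlim.comp hFs
    -- the bound of the partial sums
    have hpart : ∀ n : ℕ, ∫⁻ y, ‖∫ v in BA 1 m, tri (Fs n) (izA 1) (cfA 1 G) v * em y t v‖ₑ ^ q ≤
        C1 * ENNReal.ofReal (|t| ^ (-(q / 2 - 1))) ^ m * ((K : ℝ≥0∞) ^ q * N ^ (q / 2)) := by
      intro n
      have h4 := hC1 (Fin m → ℤ) ((Fs n).filter (· ∈ L)) (izA 1) ((K : ℝ≥0∞) ^ q) (by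
        intro c
        refine le_trans ?_ (hL ((Fs n).filter (· ∈ L)) (fun k hk => (Finset.mem_filter.mp hk).2) c)
        exact lintegral_mono_set QQ_sub) (cfA 1 G) t ht
      simp only [← tri_filter L (Fs n) (cfA 1 G) hs] at h4
      refine h4.trans ?_
      gcongr
      exact hbes' _
    -- convergence
    have hconv : ∀ y : Fin m → ℝ, Tendsto (fun n => ∫ v in BA 1 m,
        tri (Fs n) (izA 1) (cfA 1 G) v * em y t v) atTop (𝓝 (∫ v in BA 1 m, G v * em y t v)) := by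
      intro y
      rw [tendsto_iff_edist_tendsto_0]
      have h5 : ∀ n, edist (∫ v in BA 1 m, tri (Fs n) (izA 1) (cfA 1 G) v * em y t v)
          (∫ v in BA 1 m, G v * em y t v) ≤
          (∫⁻ v in BA 1 m, ‖G v - tri (Fs n) (izA 1) (cfA 1 G) v‖ₑ ^ 2) ^ (1 / 2 : ℝ) *
            (2 ^ m) ^ (1 / 2 : ℝ) := by
        intro n
        have hti : IntegrableOn (fun v => tri (Fs n) (izA 1) (cfA 1 G) v * em y t v) (BA 1 m) :=
          ((tri_cont _ _ _).mul (em_cont y t)).continuousOn.integrableOn_compact isCompact_Icc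
        rw [edist_comm, edist_eq_enorm_sub, ← integral_sub (G_int G hG h2 y t) hti]
        have h6 : ∀ v, G v * em y t v - tri (Fs n) (izA 1) (cfA 1 G) v * em y t v =
            (G v - tri (Fs n) (izA 1) (cfA 1 G) v) * em y t v := by
          intro v
          ring
        simp only [h6]
        exact sup_cube _ (hG.sub (tri_cont _ _ _).measurable) y t
      have h7 := (ENNReal.continuous_rpow_const (y := (1 / 2 : ℝ))).tendsto 0
      rw [ENNReal.zero_rpow_of_pos (by norm_num)] at h7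
      have h8 := ENNReal.Tendsto.mul_const (b := ((2 : ℝ≥0∞) ^ m) ^ (1 / 2 : ℝ)) (h7.comp hlim2)
        (Or.inr (ENNReal.rpow_ne_top_of_nonneg (by norm_num) (ENNReal.pow_ne_top (by norm_num))))
      rw [zero_mul] at h8
      exact tendsto_of_tendsto_of_tendsto_of_le_of_le tendsto_const_nhds h8 (fun _ => zero_le) h5
    have hmeas : ∀ n, Measurable (fun y : Fin m → ℝ =>
        ‖∫ v in BA 1 m, tri (Fs n) (izA 1) (cfA 1 G) v * em y t v‖ₑ ^ q) := fun n =>
      (cub_meas _ (tri_cont _ _ _).measurable t).enorm.pow_const q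
    have hfatou : ∫⁻ y, ‖∫ v in BA 1 m, G v * em y t v‖ₑ ^ q ≤
        liminf (fun n => ∫⁻ y, ‖∫ v in BA 1 m, tri (Fs n) (izA 1) (cfA 1 G) v * em y t v‖ₑ ^ q)
          atTop := by
      refine le_trans (le_of_eq ?_) (lintegral_liminf_le hmeas)
      congr 1
      ext y
      have h10 := (continuous_enorm.tendsto _).comp (hconv y)
      have h11 := ((ENNReal.continuous_rpow_const (y := q)).tendsto _).comp h10
      exact h11.liminf_eq.symm
    refine hfatou.trans ?_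
    have h12 : liminf (fun n => ∫⁻ y, ‖∫ v in BA 1 m, tri (Fs n) (izA 1) (cfA 1 G) v *
        em y t v‖ₑ ^ q) atTop ≤
        C1 * ENNReal.ofReal (|t| ^ (-(q / 2 - 1))) ^ m * ((K : ℝ≥0∞) ^ q * N ^ (q / 2)) := by
      refine (liminf_le_liminf (Eventually.of_forall hpart)).trans ?_
      simp
    refine h12.trans ?_
    push_cast
    calc (C1 : ℝ≥0∞) * ENNReal.ofReal (|t| ^ (-(q / 2 - 1))) ^ m * ((K : ℝ≥0∞) ^ q * N ^ (q / 2)) ≤
        (C1 + C2) * (D * ENNReal.ofReal ((1 + ‖t‖) ^ (-a))) * ((K : ℝ≥0∞) ^ q * N ^ (q / 2)) := by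
          gcongr
          exact le_self_add
      _ = _ := by ring

end Pool.Agent.Y183.LS
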