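import Pool.Agent.Y183.LS.K
set_option autoImplicit false

/-! The integration in time. -/

namespace Pool.Agent.Y183.LS

open MeasureTheory Set Complex Filter Topology
open scoped ENNReal NNReal
open Pool.Agent.W771 (II N2 M2 E1 ph)
open Pool.Agent.W771.MD (nuC LL)

variable {m : ℕ}

/-- the weight -/
noncomputable def Om (m : ℕ) (q t : ℝ) : ℝ≥0∞ :=
  ENNReal.ofReal ((1 + ‖t‖) ^ (-(m * (q / 2 - 1))))

lemma Om_meas (m : ℕ) (q : ℝ) : Measurable (Om m q) := by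
  unfold Om
  apply Measurable.ennreal_ofReal
  exact (measurable_const.add measurable_norm).pow_const _

lemma Om_int (hm : 1 ≤ m) (q : ℝ) (hq : 2 * ((m : ℝ) + 2) / (m + 1) < q) (s : ℝ) :
    ∫⁻ t, Om m q (t + s) ^ (((m : ℝ) + 1) / m) = ∫⁻ t, Om m q t ^ (((m : ℝ) + 1) / m) ∧
    ∫⁻ t, Om m q t ^ (((m : ℝ) + 1) / m) ≠ ∞ := by
  have hm0 : (1 : ℝ) ≤ m := by exact_mod_cast hm
  refine ⟨lintegral_add_right_eq_self (fun t => Om m q t ^ (((m : ℝ) + 1) / m)) s, ?_⟩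
  set b : ℝ := ((m : ℝ) + 1) * (q / 2 - 1) with hb
  have hb1 : 1 < b := by
    rw [div_lt_iff₀ (by linarith)] at hq
    rw [hb]
    nlinarith
  have h1 : Integrable (fun t : ℝ => (1 + ‖t‖) ^ (-b)) := by
    apply integrable_one_add_norm
    simpa using hb1
  refine ne_top_of_le_ne_top h1.lintegral_lt_top.ne (le_of_eq ?_)
  congr 1
  ext t
  have h3 : 0 ≤ 1 + ‖t‖ := by positivity
  unfold Om
  rw [ENNReal.ofReal_rpow_of_nonneg (by positivity) (by positivity), ← Real.rpow_mul h3]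
  congr 2
  rw [hb]
  field_simp

/-- the coefficients of the extension -/
lemma coef_E1 (F : ℝ → (Fin m → ℝ) → ℂ)
    (hi : Integrable (Function.uncurry F) (volume.prod (nuC m))) (k : Fin m → ℤ)
    (hk : ∀ᵐ u : ℝ, ∫ v in BA 1 m, F u v * ec (-dt (izA 1 k) v) = 0) (X T : ℝ) :
    cfA 1 (fun v => E1 F X T v) k = 0 := by
  have hψ : Measurable (fun v : Fin m → ℝ => ec (-dt (izA 1 k) v)) :=
    (ec_cont.comp (dt_cont _).neg).measurable
  have hb : ∀ v : Fin m → ℝ, ‖ec (-dt (izA 1 k) v)‖ ≤ 1 := fun v => (ec_norm _).le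
  have h1 := Pool.Agent.W771.MD.LL_eq1 F hi X T _ hψ hb
  have h2 := Pool.Agent.W771.MD.LL_eq2 F hi X T _ hψ hb
  have e : (volume : Measure (Fin m → ℝ)).restrict (Pool.Agent.W771.MD.CC m) =
      volume.restrict (BA 1 m) := Pool.Agent.W771.MD.nuC_eq
  rw [e] at h1 h2
  have h3 : ∫ u, ph X T u * ∫ v in BA 1 m, F u v * ec (-dt (izA 1 k) v) = 0 := by
    rw [integral_eq_zero_of_ae]
    filter_upwards [hk] with u hu
    rw [hu, mul_zero]
    rfl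
  rw [h3] at h2
  unfold cfA
  have h4 : ∫ v in BA 1 m, ec (-dt (izA 1 k) v) * E1 F X T v =
      ∫ v in BA 1 m, E1 F X T v * ec (-dt (izA 1 k) v) := by
    congr 1
    ext v
    ring
  rw [h4, ← h1, h2, smul_zero]

/-- **the main estimate** -/
theorem mainLS (hm : 1 ≤ m) (q p : ℝ) (hq : 2 * ((m : ℝ) + 2) / (m + 1) < q) (hp2 : 2 ≤ p)
    (hp : (m + 1) * q < p * ((m + 1) * (q - 1) - 2)) : ∃ C : ℝ≥0,
    ∀ (L : Set (Fin m → ℤ)) (K : ℝ≥0), LQ q K L →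
    ∀ F : ℝ → (Fin m → ℝ) → ℂ, Measurable (Function.uncurry F) →
    (∀ u, u ∉ II → ∀ v, F u v = 0) →
    ∀ A : ℝ≥0∞, A ≠ 0 → A ≠ ∞ → (∫⁻ u in II, N2 (nuC m) F u ^ (p / 2) ≤ A ^ p) →
    (∀ k, k ∉ L → ∀ᵐ u : ℝ, ∫ v in BA 1 m, F u v * ec (-dt (izA 1 k) v) = 0) →
    ∀ s : ℝ, ∫⁻ t : ℝ, ∫⁻ x : ℝ, ∫⁻ y : Fin m → ℝ,
      ‖LL F (-4 * Real.pi * x) (-8 * Real.pi * t) (em y (t + s))‖ₑ ^ q ≤ C * (K * A) ^ q := by
  have hm0 : (1 : ℝ) ≤ m := by exact_mod_cast hm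
  have hq2 : 2 < q := by
    rw [div_lt_iff₀ (by linarith)] at hq
    by_contra hc
    push Not at hc
    nlinarith
  have hq0 : 0 < q := by linarith
  have hq' : 2 < ((m + 1 : ℕ) : ℝ) * (q - 2) := by
    push_cast
    rw [div_lt_iff₀ (by linarith)] at hq
    nlinarith
  obtain ⟨C1, hC1⟩ := slice m q hq2.le
  obtain ⟨C2, hC2⟩ := Pool.Agent.W771.MD.oneVar_hom (m + 1) (by omega) q p hq' (by linarith)
    (by push_cast; linarith)
  obtain ⟨-, hOt⟩ := Om_int hm q hq 0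
  set I0 : ℝ≥0∞ := ∫⁻ t, Om m q t ^ (((m : ℝ) + 1) / m) with hI0
  set D : ℝ≥0∞ := (C1 : ℝ≥0∞) * (I0 ^ ((m : ℝ) / (m + 1)) * (C2 : ℝ≥0∞) ^ (1 / ((m : ℝ) + 1)))
    with hD
  have hDt : D ≠ ∞ := by
    apply ENNReal.mul_ne_top ENNReal.coe_ne_top
    apply ENNReal.mul_ne_top
    · exact ENNReal.rpow_ne_top_of_nonneg (by positivity) hOt
    · exact ENNReal.rpow_ne_top_of_nonneg (by positivity) ENNReal.coe_ne_top
  refine ⟨D.toNNReal, ?_⟩
  intro L K hL F hF hz A hA0 hAt hN hs s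
  rw [ENNReal.coe_toNNReal hDt]
  have hRN : ∫⁻ u, N2 (nuC m) F u ≠ ∞ :=
    ne_top_of_le_ne_top (ENNReal.rpow_ne_top_of_nonneg (by norm_num) hAt)
      (Pool.Agent.W771.MD.N2_of_p F hF hz p hp2 A hN)
  have hi := Pool.Agent.W771.MD.int_of_N2 F hF hz hRN
  have hnu : nuC m = volume.restrict (BA 1 m) := Pool.Agent.W771.MD.nuC_eq
  have hE : ∀ X T, Measurable (fun v => E1 F X T v) := Pool.Agent.W771.MD.E1_meas_v F hF
  have hM2 : ∀ X T, M2 (nuC m) F X T = ∫⁻ v in BA 1 m, ‖E1 F X T v‖ₑ ^ 2 := by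
    intro X T
    unfold Pool.Agent.W771.M2
    rw [hnu]
  have hM2t : ∀ X T, M2 (nuC m) F X T ≠ ∞ := fun X T =>
    ne_top_of_le_ne_top hRN (Pool.Agent.W771.MD.M2_le_N2 F hF hz X T)
  -- the slices
  have h1 : ∀ x t : ℝ, ∫⁻ y : Fin m → ℝ,
      ‖LL F (-4 * Real.pi * x) (-8 * Real.pi * t) (em y (t + s))‖ₑ ^ q ≤
      (C1 * (K : ℝ≥0∞) ^ q) * (Om m q (t + s) *
        M2 (nuC m) F (-4 * Real.pi * x) (-8 * Real.pi * t) ^ (q / 2)) := by
    intro x t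
    set X := -4 * Real.pi * x with hX
    set T := -8 * Real.pi * t with hT
    have h2 := hC1 L K hL (fun v => E1 F X T v) (hE X T) (by rw [← hM2]; exact hM2t X T)
      (fun k hk => coef_E1 F hi k (hs k hk) X T) (t + s)
    have h3 : ∀ y : Fin m → ℝ, LL F X T (em y (t + s)) =
        ∫ v in BA 1 m, E1 F X T v * em y (t + s) v := by
      intro y
      rw [Pool.Agent.W771.MD.LL_eq1 F hi X T _ (em_cont y (t + s)).measurable
        (fun v => (em_nrm y (t + s) v).le)]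
      have e : (volume : Measure (Fin m → ℝ)).restrict (Pool.Agent.W771.MD.CC m) =
        volume.restrict (BA 1 m) := Pool.Agent.W771.MD.nuC_eq
      rw [e]
    simp only [h3]
    refine h2.trans (le_of_eq ?_)
    rw [hM2]
    unfold Om
    ring
  -- measurability
  have hmeas : Measurable (fun w : ℝ × ℝ =>
      M2 (nuC m) F (-4 * Real.pi * w.1) (-8 * Real.pi * w.2) ^ (q / 2)) := by
    have h1 := Pool.Agent.W771.M2_meas (nuC m) F hF
    have h2 : Measurable (fun w : ℝ × ℝ => (-4 * Real.pi * w.1, -8 * Real.pi * w.2)) :=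
      (measurable_fst.const_mul _).prodMk (measurable_snd.const_mul _)
    have h3 := Measurable.comp h1 h2
    exact h3.pow_const _
  set Z : ℝ → ℝ≥0∞ := fun t =>
    ∫⁻ x : ℝ, M2 (nuC m) F (-4 * Real.pi * x) (-8 * Real.pi * t) ^ (q / 2) with hZ
  have hZm : Measurable Z := Measurable.lintegral_prod_left' hmeas
  have hOm : Measurable (fun t => Om m q (t + s)) := (Om_meas m q).comp (measurable_id.add_const s)
  have hCK : (C1 : ℝ≥0∞) * (K : ℝ≥0∞) ^ q ≠ ∞ :=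
    ENNReal.mul_ne_top ENNReal.coe_ne_top (ENNReal.rpow_ne_top_of_nonneg hq0.le ENNReal.coe_ne_top)
  have hOt' : ∀ t, Om m q t ≠ ∞ := fun t => ENNReal.ofReal_ne_top
  calc ∫⁻ t : ℝ, ∫⁻ x : ℝ, ∫⁻ y : Fin m → ℝ,
        ‖LL F (-4 * Real.pi * x) (-8 * Real.pi * t) (em y (t + s))‖ₑ ^ q ≤
      ∫⁻ t : ℝ, ∫⁻ x : ℝ, (C1 * (K : ℝ≥0∞) ^ q) * (Om m q (t + s) *
        M2 (nuC m) F (-4 * Real.pi * x) (-8 * Real.pi * t) ^ (q / 2)) :=
        lintegral_mono fun t => lintegral_mono fun x => h1 x t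
    _ = (C1 * (K : ℝ≥0∞) ^ q) * ∫⁻ t : ℝ, Om m q (t + s) * Z t := by
        rw [← lintegral_const_mul' _ _ hCK]
        congr 1
        ext t
        rw [lintegral_const_mul' _ _ hCK, lintegral_const_mul' _ _ (hOt' _)]
    _ ≤ (C1 * (K : ℝ≥0∞) ^ q) * ((∫⁻ t, Om m q (t + s) ^ (((m + 1 : ℕ) : ℝ) / ((m + 1 : ℕ) - 1))) ^
        ((((m + 1 : ℕ) : ℝ) - 1) / ((m + 1 : ℕ))) * (∫⁻ t, Z t ^ (m + 1)) ^ (1 / ((m + 1 : ℕ) : ℝ))) := by
        gcongr
        exact Pool.Agent.W771.MD.time_n (m + 1) (by omega) _ Z hOm hZm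
    _ ≤ (C1 * (K : ℝ≥0∞) ^ q) * (I0 ^ ((m : ℝ) / (m + 1)) *
        (C2 * A ^ (q * ((m + 1 : ℕ) : ℝ))) ^ (1 / ((m : ℝ) + 1))) := by
        have e1 : ((m + 1 : ℕ) : ℝ) / ((m + 1 : ℕ) - 1) = ((m : ℝ) + 1) / m := by
          push_cast
          ring
        have e2 : (((m + 1 : ℕ) : ℝ) - 1) / ((m + 1 : ℕ)) = (m : ℝ) / (m + 1) := by
          push_cast
          ring
        have e3 : 1 / ((m + 1 : ℕ) : ℝ) = 1 / ((m : ℝ) + 1) := by push_cast; ring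
        rw [e1, e2, e3, (Om_int hm q hq s).1]
        gcongr
        exact hC2 (Fin m → ℝ) (nuC m) F hF hz A hA0 hAt hN
    _ = _ := by
        rw [ENNReal.mul_rpow_of_nonneg _ _ (by positivity), ← ENNReal.rpow_mul, hD,
          ENNReal.mul_rpow_of_nonneg _ _ hq0.le]
        have e4 : q * ((m + 1 : ℕ) : ℝ) * (1 / ((m : ℝ) + 1)) = q := by
          push_cast
          field_simp
        rw [e4]
        ring

end Pool.Agent.Y183.LS
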