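import Pool.Agent.Y183.LS.L
set_option autoImplicit false

/-! Conversion to the extension operator. -/

namespace Pool.Agent.Y183.LS

open MeasureTheory Set Complex Filter Topology
open scoped ENNReal NNReal
open Pool.Agent.W771 (II N2 M2 E1 ph N2_meas N2_zero)
open Pool.Agent.W771.MD (nuC LL FFn tr Cb)

variable {m : ℕ}

/-- the function multiplied by the quadratic exponential -/
noncomputable def chirped (s : ℝ) (g : (Fin (m + 1) → ℝ) → ℂ) (x : Fin (m + 1) → ℝ) : ℂ :=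
  ec (s * sq2 (Fin.tail x)) * g x

lemma chirped_meas (s : ℝ) (g : (Fin (m + 1) → ℝ) → ℂ) (hg : Measurable g) :
    Measurable (chirped s g) := by
  have h : Continuous fun x : Fin (m + 1) → ℝ => ec (s * sq2 (Fin.tail x)) := by
    apply ec_cont.comp
    apply continuous_const.mul
    apply sq2_cont.comp
    unfold Fin.tail
    fun_prop
  exact h.measurable.mul hg

/-- **the extension estimate** -/
theorem mainE (hm : 1 ≤ m) (q p : ℝ) (hq : 2 * ((m : ℝ) + 2) / (m + 1) < q) (hp2 : 2 ≤ p)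
    (hp : (m + 1) * q < p * ((m + 1) * (q - 1) - 2)) : ∃ C : ℝ≥0,
    ∀ (L : Set (Fin m → ℤ)) (K : ℝ≥0), LQ q K L → ∀ s : ℝ,
    ∀ g : (Fin (m + 1) → ℝ) → ℂ, Measurable g → ∀ A : ℝ≥0∞, A ≠ 0 → A ≠ ∞ →
    (∫⁻ u in Icc (-1 : ℝ) 1, (∫⁻ v in Cb m, ‖g (Fin.cons u v)‖ₑ ^ 2) ^ (p / 2) ≤ A ^ p) →
    (∀ k, k ∉ L → ∀ᵐ u ∂(volume.restrict (Icc (-1 : ℝ) 1)),
      ∫ v in BA 1 m, g (Fin.cons u v) * ec (-dt (izA 1 k) v) = 0) →
    ∫⁻ y : (Fin (m + 1) → ℝ) × ℝ, ‖Pool.Agent.H728R3.SR.ext (chirped s g) y‖ₑ ^ q ≤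
      (C * (K * A)) ^ q := by
  obtain ⟨C, hC⟩ := mainLS hm q p hq hp2 hp
  have hm0 : (1 : ℝ) ≤ m := by exact_mod_cast hm
  have hq0 : 0 < q := by
    refine lt_trans ?_ hq
    positivity
  have hp0 : 0 ≤ p / 2 := by linarith
  -- the constant
  have hCt : (2 : ℝ≥0∞) * (C : ℝ≥0∞) ^ (1 / q) ≠ ∞ :=
    ENNReal.mul_ne_top (by norm_num) (ENNReal.rpow_ne_top_of_nonneg (by positivity)
      ENNReal.coe_ne_top)
  refine ⟨((2 : ℝ≥0∞) * (C : ℝ≥0∞) ^ (1 / q)).toNNReal, ?_⟩
  intro L K hL s g hg A hA0 hAt hN hs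
  rw [ENNReal.coe_toNNReal hCt]
  set F := FFn g with hFd
  have hF : Measurable (Function.uncurry F) := Pool.Agent.W771.MD.FFn_meas g hg
  -- the norm
  have hNF : ∫⁻ u in II, N2 (nuC m) F u ^ (p / 2) ≤ A ^ p := by
    refine le_trans ?_ hN
    have hgm : Measurable (fun u : ℝ => (∫⁻ v in Cb m, ‖g (Fin.cons u v)‖ₑ ^ 2) ^ (p / 2)) := by
      have h1 : Measurable (fun w : ℝ × (Fin m → ℝ) => ‖g (Fin.cons w.1 w.2)‖ₑ ^ 2) :=
        (hg.comp Pool.Agent.W771.MD.cons_meas).enorm.pow_const 2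
      exact (Measurable.lintegral_prod_right' h1).pow_const _
    refine le_trans (le_of_eq ?_) (Pool.Agent.W771.MD.II_scale _ hgm)
    apply setLIntegral_congr_fun measurableSet_Icc
    intro u hu
    simp only [hFd]
    rw [Pool.Agent.W771.MD.FFn_N2 g u hu]
  have hae : ∀ᵐ u : ℝ, N2 (nuC m) F u ≠ ∞ := by
    have h1 : ∀ᵐ u ∂(volume.restrict II), N2 (nuC m) F u ^ (p / 2) < ∞ := by
      apply ae_lt_top ((N2_meas (nuC m) F hF).pow_const _)
      exact ne_top_of_le_ne_top (ENNReal.rpow_ne_top_of_nonneg (by linarith) hAt) hNF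
    rw [ae_restrict_iff' measurableSet_Icc] at h1
    filter_upwards [h1] with u hu
    by_cases h : u ∈ II
    · intro hc
      have h2 := hu h
      rw [hc, ENNReal.top_rpow_of_pos (by linarith)] at h2
      exact absurd h2 (lt_irrefl _)
    · rw [N2_zero (nuC m) F II (fun u hu v => indicator_of_notMem hu _) u h]
      exact ENNReal.zero_ne_top
  have htr : ∀ w : ℝ × (Fin m → ℝ), N2 (nuC m) F w.1 ≠ ∞ → tr F w.1 w.2 = F w.1 w.2 :=
    fun w hw => indicator_of_mem (by exact hw) _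
  have hLL : ∀ X T ψ, LL F X T ψ = LL (tr F) X T ψ := by
    intro X T ψ
    unfold Pool.Agent.W771.MD.LL
    apply integral_congr_ae
    have h1 : ∀ᵐ w ∂((volume : Measure ℝ).prod (nuC m)), N2 (nuC m) F w.1 ≠ ∞ :=
      Measure.quasiMeasurePreserving_fst.ae hae
    filter_upwards [h1] with w hw
    rw [htr w hw]
  -- the chirp is a translation in time
  have hch : ∀ (X T t : ℝ) (y : Fin m → ℝ),
      LL (FFn (chirped s g)) X T (em y t) = LL F X T (em y (t + s)) := by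
    intro X T t y
    unfold Pool.Agent.W771.MD.LL
    congr 1
    ext w
    have h1 : FFn (chirped s g) w.1 w.2 = ec (s * sq2 w.2) * F w.1 w.2 := by
      rw [hFd]
      unfold Pool.Agent.W771.MD.FFn chirped
      by_cases hu : w.1 ∈ II
      · rw [indicator_of_mem hu, indicator_of_mem hu, Fin.tail_cons]
      · rw [indicator_of_notMem hu, indicator_of_notMem hu, mul_zero]
    have h2 : em y (t + s) w.2 = em y t w.2 * ec (s * sq2 w.2) := by
      rw [em_eq, em_eq, add_mul, ec_add]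
      ring
    rw [h1, h2]
    ring
  have hext : ∀ x y t, ‖Pool.Agent.H728R3.SR.ext (chirped s g) (Fin.cons x y, t)‖ₑ ^ q =
      (2 : ℝ≥0∞) ^ q * ‖LL (tr F) (-4 * Real.pi * x) (-8 * Real.pi * t) (em y (t + s))‖ₑ ^ q := by
    intro x y t
    rw [Pool.Agent.W771.MD.ext_LL]
    have h1 := hch (-4 * Real.pi * x) (-8 * Real.pi * t) t y
    rw [h1, hLL, enorm_mul, ENNReal.mul_rpow_of_nonneg _ _ hq0.le]
    congr 2
    rw [← ofReal_norm]
    norm_num
  have h2q : (2 : ℝ≥0∞) ^ q ≠ ∞ := ENNReal.rpow_ne_top_of_nonneg hq0.le (by norm_num)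
  rw [Pool.Agent.W771.MD.lint_cons _
    ((Pool.Agent.W771.MD.ext_meas (m + 1) _ (chirped_meas s g hg)).enorm.pow_const q)]
  simp only [hext, lintegral_const_mul' _ _ h2q]
  -- the spectrum
  have hsp : ∀ k, k ∉ L → ∀ᵐ u : ℝ, ∫ v in BA 1 m, tr F u v * ec (-dt (izA 1 k) v) = 0 := by
    intro k hk
    have h1 := hs k hk
    rw [ae_restrict_iff' measurableSet_Icc] at h1
    have hqm : Measure.QuasiMeasurePreserving (fun u : ℝ => 2 * u) volume volume := by
      refine ⟨measurable_const_mul 2, ?_⟩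
      rw [Real.map_volume_mul_left two_ne_zero]
      exact Measure.smul_absolutelyContinuous
    filter_upwards [hqm.ae h1, hae] with u hu hu2
    have h3 : ∀ v, tr F u v = F u v := fun v => htr (u, v) hu2
    simp only [h3]
    by_cases h : u ∈ II
    · have h4 := hu ((Pool.Agent.W771.MD.two_mem u).mpr h)
      have h5 : ∀ v, F u v = g (Fin.cons (2 * u) v) := by
        intro v
        rw [hFd]
        unfold Pool.Agent.W771.MD.FFn
        rw [indicator_of_mem h]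
      simp only [h5]
      exact h4
    · have h5 : ∀ v, F u v = 0 := by
        intro v
        rw [hFd]
        unfold Pool.Agent.W771.MD.FFn
        rw [indicator_of_notMem h]
      simp only [h5, zero_mul, integral_zero]
  have hmain := hC L K hL (tr F) (Pool.Agent.W771.MD.tr_meas F hF) (fun u hu v => by
      unfold Pool.Agent.W771.MD.tr
      by_cases h : u ∈ {u | N2 (nuC m) F u ≠ ∞}
      · rw [indicator_of_mem h]
        exact indicator_of_notMem hu _
      · rw [indicator_of_notMem h]) A hA0 hAt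
    ((lintegral_mono fun u => ENNReal.rpow_le_rpow (Pool.Agent.W771.MD.tr_N2 F u).1 hp0).trans hNF)
    hsp s
  calc (2 : ℝ≥0∞) ^ q * ∫⁻ t : ℝ, ∫⁻ x : ℝ, ∫⁻ y, ‖LL (tr F) (-4 * Real.pi * x)
        (-8 * Real.pi * t) (em y (t + s))‖ₑ ^ q ≤ (2 : ℝ≥0∞) ^ q * (C * (K * A) ^ q) := by gcongr
    _ = _ := by
        rw [ENNReal.mul_rpow_of_nonneg _ (K * A) hq0.le, ENNReal.mul_rpow_of_nonneg (K : ℝ≥0∞) A hq0.le,
          ENNReal.mul_rpow_of_nonneg 2 _ hq0.le,
          ← ENNReal.rpow_mul, one_div, inv_mul_cancel₀ hq0.ne', ENNReal.rpow_one]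
        ring

end Pool.Agent.Y183.LS
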